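import Pool.Agent.Helper35K9.OF.Ari

/-! Residue classes of primes with given symbols. -/

set_option autoImplicit false

namespace Pool.Agent.Helper35K9.OF

open Finset
open Pool.Agent.Y697.MQ (leg leg_ne leg_cases leg_congr leg_eq_zero leg_mul leg_sq_eq OP Pr Pr_iff Pr_prod gA Gd recip gA_zero types)
open Pool.Agent.Helper35K9.TW
open Pool.Agent.Helper35K9.LW.Rep (Primary symbol op_iff symbol_eq leg_neg_left inert_leg leg_i)
open Pool.Agent.Y697.PP (Mt)
open Pool.Agent.Helper35K9.TW.PP (gA_symm)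

theorem norm_cast_eq (x : GaussianInt) : ((x.norm.natAbs : ℕ) : GaussianInt) = x * star x := by
  rw [← Zsqrtd.norm_eq_mul_conj]
  have h2 : ((x.norm.natAbs : ℕ) : ℤ) = x.norm := by
    rw [Int.natCast_natAbs, abs_of_nonneg (GaussianInt.norm_nonneg _)]
  rw [← h2]
  simp

theorem dvd_norm (x : GaussianInt) : x ∣ ((x.norm.natAbs : ℕ) : GaussianInt) := by
  rw [norm_cast_eq]
  exact dvd_mul_right _ _

theorem dvd_int {x : GaussianInt} {n : ℤ} (hx : (x.norm.natAbs).Prime) (h : x ∣ (n : GaussianInt)) :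
    (x.norm.natAbs : ℤ) ∣ n := by
  obtain ⟨c, hc⟩ := h
  have h1 : n * n = x.norm * c.norm := by
    have := congrArg Zsqrtd.norm hc
    rw [Zsqrtd.norm_mul, Zsqrtd.norm_intCast] at this
    exact this
  have h2 : (x.norm.natAbs : ℤ) ∣ n * n := by
    rw [h1]
    exact (Int.natAbs_dvd.2 (dvd_refl _)).mul_right _
  have hp : Prime (x.norm.natAbs : ℤ) := Nat.prime_iff_prime_int.1 hx
  rcases hp.dvd_or_dvd h2 with h | h <;> exact h

/-- the integers represent all the classes modulo a prime of degree one -/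
theorem surj {x : GaussianInt} (hx : (x.norm.natAbs).Prime) (b : GaussianInt) :
    ∃ m : ℤ, x ∣ b - (m : GaussianInt) := by
  set l : ℕ := x.norm.natAbs with hl
  have hn : (l : ℤ) = x.re * x.re + x.im * x.im := by
    rw [hl, Int.natCast_natAbs, abs_of_nonneg (GaussianInt.norm_nonneg _), Zsqrtd.norm_def]
    ring
  have hp : Prime (l : ℤ) := Nat.prime_iff_prime_int.1 hx
  have h1 : ¬ (l : ℤ) ∣ x.im := by
    intro h
    have h2 : (l : ℤ) ∣ x.re * x.re := by
      have h3 : x.re * x.re = l - x.im * x.im := by rw [hn]; ring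
      rw [h3]
      exact dvd_sub (dvd_refl _) (h.mul_right _)
    have h4 : (l : ℤ) ∣ x.re := by rcases hp.dvd_or_dvd h2 with h | h <;> exact h
    obtain ⟨a, ha⟩ := h
    obtain ⟨c, hc⟩ := h4
    have h5 : (l : ℤ) * (l * (c * c + a * a)) = l * 1 := by
      have : (l : ℤ) * (l * (c * c + a * a)) = x.re * x.re + x.im * x.im := by rw [ha, hc]; ring
      rw [this, ← hn, mul_one]
    have h6 := mul_left_cancel₀ (by exact_mod_cast hx.ne_zero) h5
    have h7 : (l : ℤ) ∣ 1 := ⟨_, h6.symm⟩
    exact hp.not_isUnit (isUnit_of_dvd_one h7)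
  have h2 : IsCoprime x.im (l : ℤ) := ((hp.irreducible.coprime_iff_not_dvd).2 h1).symm
  obtain ⟨u, v, huv⟩ := h2
  refine ⟨b.re - b.im * (u * x.re), ?_⟩
  have h3 : b - ((b.re - b.im * (u * x.re) : ℤ) : GaussianInt) =
      (b.im : GaussianInt) * ((u : GaussianInt) * x) +
        (b.im : GaussianInt) * ⟨0, 1⟩ * (v : GaussianInt) * ((l : ℕ) : GaussianInt) := by
    have huv' : u * x.im = 1 - v * l := by linarith
    apply Zsqrtd.ext
    · simp
    · simp
      have : b.im * (u * x.im) + b.im * (v * l) = b.im := by rw [huv']; ring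
      linarith
  rw [h3]
  exact dvd_add (((dvd_refl x).mul_left _).mul_left _) ((dvd_norm x).mul_left _)

theorem leg_one {q : GaussianInt} (hq : Prime q) : leg q 1 = 1 := by
  unfold leg
  rw [if_neg fun h => hq.not_isUnit (isUnit_of_dvd_one h), if_pos ⟨1, by simp⟩]

theorem leg_neg_one {q : GaussianInt} (hq : Prime q) : leg q (-1) = 1 := by
  unfold leg
  rw [if_neg fun h => hq.not_isUnit (isUnit_of_dvd_one ((dvd_neg).1 h)), if_pos ⟨⟨0, 1⟩, by
    have e : (⟨0, 1⟩ : GaussianInt) ^ 2 - -1 = 0 := by decide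
    rw [e]
    exact dvd_zero _⟩]

theorem leg_neg_right {q : GaussianInt} (hq : Prime q) (a : GaussianInt) : leg q (-a) = leg q a := by
  rw [neg_eq_neg_one_mul, leg_mul hq, leg_neg_one hq, one_mul]

/-- an integer which is not a square -/
theorem nonres {x : GaussianInt} (hxO : OP x) (hx : (x.norm.natAbs).Prime) :
    ∃ n : ℕ, leg x (n : GaussianInt) = -1 := by
  set l : ℕ := x.norm.natAbs with hl
  have : Fact l.Prime := ⟨hx⟩
  have hl2 : l ≠ 2 := by
    intro h
    have h1 := (Pr_iff2 x).1 hxO.pm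
    have h2 : (x.norm.natAbs : ℤ) = x.re * x.re + x.im * x.im := by
      rw [Int.natCast_natAbs, abs_of_nonneg (GaussianInt.norm_nonneg _), Zsqrtd.norm_def]
      ring
    have h3 : Odd (x.re * x.re + x.im * x.im) := by
      have h4 : Odd x.re := by rw [Int.odd_iff]; omega
      have h5 : Even x.im := Int.even_iff.2 h1.1
      exact (h4.mul h4).add_even (h5.mul_right _)
    rw [← h2, ← hl, h] at h3
    exact absurd h3 (by decide)
  obtain ⟨a, ha⟩ := FiniteField.exists_nonsquare (F := ZMod l) (by rwa [ZMod.ringChar_zmod_n])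
  refine ⟨a.val, ?_⟩
  have hnd : ¬ x ∣ ((a.val : ℕ) : GaussianInt) := by
    intro h
    have h1 := dvd_int (n := (a.val : ℤ)) hx (by exact_mod_cast h)
    have h2 : ((a.val : ℤ) : ZMod l) = 0 := (ZMod.intCast_zmod_eq_zero_iff_dvd _ l).2 h1
    push_cast at h2
    rw [ZMod.natCast_zmod_val] at h2
    exact ha ⟨0, by rw [h2]; ring⟩
  rcases leg_ne hnd with h | h
  · exfalso
    unfold leg at h
    rw [if_neg hnd] at h
    have hex : ∃ b : GaussianInt, x ∣ b ^ 2 - ((a.val : ℕ) : GaussianInt) := by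
      by_contra hc
      rw [if_neg hc] at h
      exact absurd h (by norm_num)
    obtain ⟨b, hb⟩ := hex
    obtain ⟨m, hm⟩ := surj hx b
    have h1 : x ∣ ((m ^ 2 - (a.val : ℤ) : ℤ) : GaussianInt) := by
      have h2 : ((m ^ 2 - (a.val : ℤ) : ℤ) : GaussianInt) =
          (b ^ 2 - ((a.val : ℕ) : GaussianInt)) - (b - (m : GaussianInt)) * (b + (m : GaussianInt)) := by
        push_cast
        ring
      rw [h2]
      exact dvd_sub hb (hm.mul_right _)
    have h2 := (ZMod.intCast_zmod_eq_zero_iff_dvd _ l).2 (dvd_int hx h1)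
    push_cast at h2
    rw [ZMod.natCast_zmod_val] at h2
    exact ha ⟨(m : ZMod l), by rw [← pow_two]; exact (sub_eq_zero.1 h2).symm⟩
  · exact h

/-- **The residue classes.** -/
theorem cls {Q : Finset GaussianInt} (hQ : ∀ x ∈ Q, OP x) (hN : ∀ x ∈ Q, (x.norm.natAbs).Prime)
    (hNi : Set.InjOn (fun x : GaussianInt => x.norm.natAbs) Q) (C : Finset GaussianInt) :
    ∃ q a : ℕ, q ≠ 0 ∧ a.Coprime q ∧ ∀ p : ℕ, p.Prime → p ≡ a [MOD q] → p % 8 = 3 ∧
      ∀ x ∈ Q, leg x (-(p : GaussianInt)) = if x ∈ C then -1 else 1 := by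
  classical
  have hex : ∀ x : GaussianInt, ∃ n : ℕ, x ∈ Q → leg x (n : GaussianInt) = if x ∈ C then -1 else 1 := by
    intro x
    by_cases hx : x ∈ Q
    · by_cases hC : x ∈ C
      · obtain ⟨n, hn⟩ := nonres (hQ x hx) (hN x hx)
        exact ⟨n, fun _ => by rw [if_pos hC]; exact hn⟩
      · exact ⟨1, fun _ => by rw [if_neg hC, Nat.cast_one]; exact leg_one (hQ x hx).pr⟩
    · exact ⟨0, fun h => absurd h hx⟩
  choose n hn using hex
  set m : ℕ := ∏ x ∈ Q, x.norm.natAbs with hm
  have hpp : Set.Pairwise (Q : Set GaussianInt)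
      (Function.onFun Nat.Coprime fun x : GaussianInt => x.norm.natAbs) := by
    intro x hx y hy hxy
    exact (Nat.coprime_primes (hN x hx) (hN y hy)).2 fun h => hxy (hNi hx hy h)
  obtain ⟨k, hk⟩ := Nat.chineseRemainderOfFinset n (fun x : GaussianInt => x.norm.natAbs) Q
    (fun x hx => (hN x hx).ne_zero) hpp
  have hodd : ∀ x ∈ Q, Odd x.norm.natAbs := by
    intro x hx
    have h1 := (Pr_iff2 x).1 (hQ x hx).pm
    have h2 : x.norm = x.re * x.re + x.im * x.im := by rw [Zsqrtd.norm_def]; ring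
    rw [Int.natAbs_odd, h2]
    have h3 : Odd x.re := by
      rw [Int.odd_iff]
      omega
    have h4 : Even x.im := Int.even_iff.2 h1.1
    exact (h3.mul h3).add_even (h4.mul_right _)
  have hm2 : m.Coprime 8 := by
    have : Odd m := by
      rw [hm]
      exact Finset.prod_induction _ Odd (fun _ _ => Odd.mul) odd_one hodd
    exact Nat.Coprime.pow_right 3 (Nat.Coprime.symm ((Nat.coprime_two_left).2 this))
  have hm0 : m ≠ 0 := by
    intro h
    rw [h] at hm2
    norm_num at hm2
  obtain ⟨a, ha1, ha2⟩ := Nat.chineseRemainder hm2 k 3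
  have hax : ∀ x ∈ Q, ∀ p : ℕ, p ≡ a [MOD m] → leg x (p : GaussianInt) = if x ∈ C then -1 else 1 := by
    intro x hx p hp
    have h1 : p ≡ n x [MOD x.norm.natAbs] :=
      ((hp.trans ha1).of_dvd (Finset.dvd_prod_of_mem _ hx)).trans (hk x hx)
    rw [← hn x hx]
    apply leg_congr
    obtain ⟨c, hc⟩ := Nat.modEq_iff_dvd.1 h1.symm
    have h2 : (p : GaussianInt) - (n x : GaussianInt) =
        ((x.norm.natAbs : ℕ) : GaussianInt) * (c : GaussianInt) := by
      have h3 := congrArg (fun z : ℤ => (z : GaussianInt)) hc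
      simp only [Int.cast_sub, Int.cast_mul, Int.cast_natCast] at h3
      exact h3
    rw [h2]
    exact (dvd_norm x).mul_right _
  have hac : a.Coprime (m * 8) := by
    apply Nat.Coprime.mul_right
    · rw [hm]
      apply Nat.Coprime.prod_right
      intro x hx
      rw [Nat.coprime_comm, (hN x hx).coprime_iff_not_dvd]
      intro h
      have h1 := hax x hx a (Nat.ModEq.refl _)
      have h2 : x ∣ (a : GaussianInt) := by
        obtain ⟨c, hc⟩ := h
        rw [hc]
        push_cast
        exact (dvd_norm x).mul_right _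
      rw [leg_eq_zero.2 h2] at h1
      split_ifs at h1 <;> norm_num at h1
    · have := Nat.ModEq.gcd_eq ha2
      exact this
  refine ⟨m * 8, a, Nat.mul_ne_zero hm0 (by norm_num), hac, fun p hp hpa => ?_⟩
  have h8 : p % 8 = 3 := (hpa.of_mul_left m).trans ha2
  have h1 : p ≡ a [MOD m] := hpa.of_mul_right 8
  refine ⟨h8, fun x hx => ?_⟩
  rw [leg_neg_right (hQ x hx).pr]
  exact hax x hx p h1

open Classical in
/-- the divergence -/
theorem nonsum (hdir : S_DIR) {Q : Finset GaussianInt} (hQ : ∀ x ∈ Q, OP x)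
    (hN : ∀ x ∈ Q, (x.norm.natAbs).Prime)
    (hNi : Set.InjOn (fun x : GaussianInt => x.norm.natAbs) Q) {s : ℕ} (e : Fin s ≃ Q)
    (φ : Prs s → ZMod 2) (hφ : φ ≠ 0) : ¬ Summable (fun p : ℕ =>
      if p.Prime ∧ P4 (⟨1, 1⟩ * ∏ x ∈ Q, x) p ∧ ∑ k, φ k * bb e p k = 1 then (1 / p : ℝ) else 0) := by
  have hk : ∃ k, φ k = 1 := by
    by_contra hc
    push Not at hc
    apply hφ
    funext k
    have : ∀ z : ZMod 2, z ≠ 1 → z = 0 := by decide
    exact this _ (hc k)
  obtain ⟨k₀, hk₀⟩ := hk
  set C : Finset GaussianInt := {(e k₀.1.1 : GaussianInt), (e k₀.1.2 : GaussianInt)} with hC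
  obtain ⟨q, a, hq, haq, hcl⟩ := cls hQ hN hNi C
  intro hsum
  apply hdir q a hq haq
  refine Summable.of_nonneg_of_le (fun p => by split_ifs <;> positivity) (fun p => ?_) hsum
  by_cases hp : p.Prime ∧ p ≡ a [MOD q]
  swap
  · rw [if_neg hp]
    split_ifs <;> positivity
  obtain ⟨h8, hx⟩ := hcl p hp.1 hp.2
  obtain ⟨hOP, hclp⟩ := Pool.Agent.Helper35K9.LW.Rep.inert_OP hp.1 h8
  have hne : (e k₀.1.1 : GaussianInt) ≠ (e k₀.1.2 : GaussianInt) := by
    intro h
    have := e.injective (Subtype.ext h)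
    exact absurd this (ne_of_lt k₀.2)
  have hgA : ∀ x ∈ Q, gA (-(p : GaussianInt)) x = if x ∈ C then 1 else 0 := by
    intro x hxQ
    rw [gA_lg, hx x hxQ]
    split_ifs <;> rfl
  have hnot : -(p : GaussianInt) ∉ Q := by
    intro h
    have h1 := hx _ h
    rw [leg_eq_zero.2 (dvd_refl _)] at h1
    split_ifs at h1 <;> norm_num at h1
  have hP4 : P4 (⟨1, 1⟩ * ∏ x ∈ Q, x) p := by
    refine ⟨by omega, ?_⟩
    rw [symbol_eq, ← leg_neg_left]
    obtain ⟨h1, h2⟩ := row_sum hQ hOP hnot
    rw [← lg_inj h2, ← h1, gL_lg, hclp, Finset.sum_congr rfl hgA, Finset.sum_ite_mem,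
      Finset.sum_const]
    have h3 : (Q ∩ C).card = 2 := by
      have h4 : Q ∩ C = C := Finset.inter_eq_right.2 (by
        intro y hy
        rw [hC, Finset.mem_insert, Finset.mem_singleton] at hy
        rcases hy with rfl | rfl <;> exact (e _).2)
      rw [h4, hC, Finset.card_pair hne]
    rw [h3]
    decide
  have hsumk : ∑ k, φ k * bb e p k = 1 := by
    rw [Finset.sum_eq_single k₀]
    · unfold bb
      rw [hgA _ (e k₀.1.1).2, hgA _ (e k₀.1.2).2, hk₀, if_pos (by rw [hC]; simp),
        if_pos (by rw [hC]; simp)]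
      rfl
    · intro k _ hkk
      unfold bb
      rw [hgA _ (e k.1.1).2, hgA _ (e k.1.2).2]
      by_cases h1 : (e k.1.1 : GaussianInt) ∈ C
      · by_cases h2 : (e k.1.2 : GaussianInt) ∈ C
        · exfalso
          rw [hC, Finset.mem_insert, Finset.mem_singleton] at h1 h2
          have inj : ∀ {i j : Fin s}, (e i : GaussianInt) = (e j : GaussianInt) → i = j :=
            fun h => e.injective (Subtype.ext h)
          apply hkk
          have hlt := k.2
          have hlt₀ := k₀.2
          apply Subtype.ext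
          apply Prod.ext
          · rcases h1 with h1 | h1
            · exact inj h1
            · exfalso
              rw [inj h1] at hlt
              rcases h2 with h2 | h2
              · rw [inj h2] at hlt
                exact lt_asymm hlt hlt₀
              · rw [inj h2] at hlt
                exact lt_irrefl _ hlt
          · rcases h2 with h2 | h2
            · exfalso
              rw [inj h2] at hlt
              rcases h1 with h1 | h1
              · rw [inj h1] at hlt
                exact lt_irrefl _ hlt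
              · rw [inj h1] at hlt
                exact lt_asymm hlt hlt₀
            · exact inj h2
        · rw [if_neg h2, mul_zero, mul_zero]
      · rw [if_neg h1, zero_mul, mul_zero]
    · intro h
      exact absurd (Finset.mem_univ _) h
  rw [if_pos hp, if_pos ⟨hp.1, hP4, hsumk⟩]

end Pool.Agent.Helper35K9.OF
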