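import Mathlib

/-! Project OF: statements of the leaves. Mathlib only. -/

set_option autoImplicit false

namespace Pool.Agent.Helper35K9.OF

open Finset Filter Topology
open scoped Classical

/-! ### Matrices over the field with two elements -/

/-- the symmetric matrix with diagonal `θ v + ∑_(x ≠ v) A v x` and the entries `A v u` off the diagonal -/
def Lp {W : Type} [Fintype W] [DecidableEq W] (A : W → W → ZMod 2) (θ : W → ZMod 2) :
    Matrix W W (ZMod 2) := fun v u => if u = v then θ v + ∑ x ∈ univ.erase v, A v x else A v u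

/-- SCH. If the last block of the matrix is the identity, the determinant is that of the Schur complement,
and the changes on the diagonal cancel. Proof: `Matrix.det_fromBlocks_one₂₂`: the determinant is
`det (A' - B Bᵀ)`, the diagonal entries of `A'` are `θ v + ∑_(x ≠ v) A v x + ∑_i A v i`, those of `B Bᵀ` are
`∑_i (A v i)² = ∑_i A v i`; `-1 = 1`. -/
def S_SCH : Prop := ∀ (α ι : Type) [Fintype α] [DecidableEq α] [Fintype ι] [DecidableEq ι]
  (A : α ⊕ ι → α ⊕ ι → ZMod 2) (θ : α ⊕ ι → ZMod 2), (∀ x y, A x y = A y x) →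
  (∀ i j : ι, i ≠ j → A (Sum.inr i) (Sum.inr j) = 0) →
  (∀ i : ι, θ (Sum.inr i) + ∑ v : α, A (Sum.inr i) (Sum.inl v) = 1) →
  (Lp A θ).det = (Matrix.det fun v u : α =>
    Lp (fun v u : α => A (Sum.inl v) (Sum.inl u)) (fun v : α => θ (Sum.inl v)) v u +
      if u = v then 0 else ∑ i : ι, A (Sum.inl v) (Sum.inr i) * A (Sum.inl u) (Sum.inr i))

/-- the pairs -/
abbrev Prs (s : ℕ) : Type := {e : Fin s × Fin s // e.1 < e.2}

/-- the symmetric matrix with zero diagonal and given entries above the diagonal -/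
def alt {s : ℕ} (a : Prs s → ZMod 2) : Matrix (Fin s) (Fin s) (ZMod 2) := fun i j =>
  if h : i < j then a ⟨(i, j), h⟩ else if h : j < i then a ⟨(j, i), h⟩ else 0

/-- `∏_(i < m) (1 - 2 ^ (-(2 i + 1)))` -/
noncomputable def piM (m : ℕ) : ℝ := ∏ i ∈ Finset.range m, (1 - 1 / 2 ^ (2 * i + 1))

/-- ALT. For a symmetric matrix `M` over the field with two elements of size `s`, with nonzero diagonal or with
`s` even, exactly the proportion `∏_(i < s / 2) (1 - 2 ^ (-(2 i + 1)))` of the sums of `M` and the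
matrices with zero diagonal are invertible. (Checked: s = 1: 1, s = 2: 1/2, s = 3: 1/2, s = 4: 7/16.)

Proof. Let `f s v` be the number of the invertible symmetric matrices with diagonal `v` (it is the number of
the `a` with `det (M + alt a) ≠ 0`, `v` the diagonal of `M`), `N s = ∑_v f s v`. If a diagonal entry is 1, move it
to the corner (a permutation of the indices); `det [[1, c], [cᵀ, S]] = det (S + cᵀ c)`
(`Matrix.det_fromBlocks_one₁₁`), and `S + cᵀ c` has the diagonal `v' + c`; for fixed `c` the off-diagonal part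
of `S + cᵀ c` is free, so `f s v = ∑_c f (s-1) (v' + c) = N (s - 1)` for `v ≠ 0`. For `v = 0`:
`[[0, c], [cᵀ, S]]` is singular for `c = 0`; for `c ≠ 0`, a change of basis (transvections) makes `c = (1, 0, ..., 0)`,
so `f s 0 = (2 ^ (s-1) - 1) 2 ^ (s-2) f (s-2) 0`, `f 0 0 = 1`, `f 1 0 = 0` (or avoid the change of basis: the Schur
complement with respect to the 2 x 2 block `[[0,1],[1,0]]` of the rows `0, j`, `j` the first index with `c_j = 1`).
`N s = (2 ^ s - 1) N (s - 1) + f s 0`. By induction `f s 0 = 2 ^ (s (s-1) / 2) piM (s / 2)` for `s` even, `0` for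
`s` odd, and `N s = 2 ^ (s (s + 1) / 2) piM ((s + 1) / 2)`. -/
def S_ALT : Prop := ∀ (s : ℕ) (M : Matrix (Fin s) (Fin s) (ZMod 2)), (∀ i j, M i j = M j i) →
  ((∃ i, M i i = 1) ∨ Even s) →
  ((univ.filter fun a : Prs s → ZMod 2 => (M + alt a).det ≠ 0).card : ℝ) =
    piM (s / 2) * 2 ^ (Fintype.card (Prs s))

/-- PIM. `piM m ≥ 0.4194` for every `m` (`piM` is decreasing; `∏_(i ≥ m) (1 - 2 ^ (-(2i+1))) ≥ 1 - ∑ ≥
1 - (2/3) 4 ^ (1 - m)`, and `piM 8` is a rational number). -/
def S_PIM : Prop := ∀ m : ℕ, 0.4194 ≤ piM m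

/-! ### Analytic density -/

/-- the Dirichlet series `∑_(n ∈ S) n ^ (-x)` -/
noncomputable def Z (S : Set ℕ) (x : ℝ) : ℝ := ∑' n : ℕ, if n ∈ S then (n : ℝ) ^ (-x) else 0

/-- the squarefree numbers with all prime factors in `P` -/
def Dd (P : ℕ → Prop) : Set ℕ := {d | Squarefree d ∧ ∀ p : ℕ, p.Prime → p ∣ d → P p}

/-- DIR. The sum of `1 / p` over the primes in a residue class diverges.

Proof. Mathlib: `ArithmeticFunction.vonMangoldt.LSeries_residueClass_lower_bound` :
`∑_(n ≡ a) Λ(n) n ^ (-x) ≥ (1/φ(q)) / (x - 1) - C` for `1 < x ≤ 2`; the higher prime powers contribute a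
bounded amount (see the proof of `not_summable_residueClass_prime_div` there). If `∑ 1/p` over the class
converges, then `(x - 1) ∑ log p p ^ (-x) = ∑ (1/p) ((x - 1) log p p ^ (-(x - 1))) → 0` as `x → 1+` by dominated
convergence (`u e ^ (-u) ≤ 1`, `tendsto_tsum_of_dominated_convergence`), a contradiction. -/
def S_DIR : Prop := ∀ q a : ℕ, q ≠ 0 → a.Coprime q →
  ¬ Summable (fun p : ℕ => if p.Prime ∧ p ≡ a [MOD q] then (1 / p : ℝ) else 0)

/-- DEN. Equidistribution, in the sense of the analytic density, of an additive function with values in a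
finite elementary 2-group on the squarefree numbers with prime factors in `P`.

Proof. For `φ : κ → ZMod 2` let `h_φ(d) = ∏_(p ∣ d) (-1)^(φ · b p)`. By orthogonality
`1[g(d) = v] = 2 ^ (-#κ) ∑_φ (-1)^(φ · v) h_φ(d)`, `h_0 = 1`. For `x > 1` the Euler product
(`EulerProduct.eulerProduct_hasProd`, or its version for squarefree support; all series converge absolutely,
`|h| ≤ 1`): `∑_(d ∈ Dd P) h_φ(d) d^(-x) = ∏_(p ∈ P) (1 + h_φ(p) p^(-x))`. The quotient by the product for
`φ = 0` is `∏ (1 - p^(-x)) / (1 + p^(-x))` over the `p` with `h_φ(p) = -1`, at most `exp (-∑ p^(-x))`-like, which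
tends to `0` as `x → 1+` as the sum of `1/p` diverges (finite partial sums are continuous in `x`). -/
def S_DEN : Prop := ∀ (P : ℕ → Prop) (κ : Type) [Fintype κ] (b : ℕ → κ → ZMod 2),
  (∀ φ : κ → ZMod 2, φ ≠ 0 → ¬ Summable (fun p : ℕ =>
    if p.Prime ∧ P p ∧ ∑ k, φ k * b p k = 1 then (1 / p : ℝ) else 0)) →
  ∀ v : κ → ZMod 2, Tendsto (fun x : ℝ =>
    Z {d | d ∈ Dd P ∧ ∑ p ∈ d.primeFactors, b p = v} x / Z (Dd P) x) (𝓝[>] 1)
      (𝓝 (1 / 2 ^ Fintype.card κ))

end Pool.Agent.Helper35K9.OF
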