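import Mathlib
import Pool.Agent.Helper35K9.OF.Stm

/-! PIM and SCH. -/

set_option autoImplicit false

namespace Pool.Agent.Helper35K9.OF

open Finset Filter Topology
open scoped Classical

namespace PimL

theorem succ (m : ℕ) : piM (m + 1) = piM m * (1 - 1 / 2 ^ (2 * m + 1)) := by
  unfold piM
  rw [Finset.prod_range_succ]

theorem nonneg (m : ℕ) : 0 ≤ piM m := by
  unfold piM
  apply Finset.prod_nonneg
  intro i _
  have h1 : (1 : ℝ) ≤ 2 ^ (2 * i + 1) := one_le_pow₀ (by norm_num)
  have h2 : (1 : ℝ) / 2 ^ (2 * i + 1) ≤ 1 := by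
    rw [div_le_one (by positivity)]
    exact h1
  linarith

theorem eight : piM 8 = (1/2) * (7/8) * (31/32) * (127/128) * (511/512) * (2047/2048) *
    (8191/8192) * (32767/32768) := by
  unfold piM
  norm_num [Finset.prod_range_succ]

theorem tail (j : ℕ) : piM 8 * (1 - (2/3) * (1/4) ^ 8 * (1 - (1/4) ^ j)) ≤ piM (8 + j) := by
  induction j with
  | zero => simp
  | succ j ih =>
    rw [← Nat.add_assoc, succ (8 + j)]
    have hx : (1 : ℝ) / 2 ^ (2 * (8 + j) + 1) = (1/2) * (1/4) ^ 8 * (1/4) ^ j := by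
      have e : (2 : ℝ) ^ (2 * (8 + j) + 1) = 2 * 4 ^ 8 * 4 ^ j := by
        rw [show 2 * (8 + j) + 1 = 1 + 2 * 8 + 2 * j by ring, pow_add, pow_add, pow_mul 2 2 j,
          pow_mul 2 2 8]
        norm_num
      rw [e, one_div_pow, one_div_pow]
      field_simp
    rw [hx]
    have h1 : (0:ℝ) < (1/4) ^ j := by positivity
    have h1' : ((1:ℝ)/4) ^ j ≤ 1 := pow_le_one₀ (by norm_num) (by norm_num)
    set y : ℝ := (1/4) ^ j with hy
    have h2 : (1/4 : ℝ) ^ (j + 1) = y / 4 := by rw [pow_succ, hy]; ring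
    rw [h2]
    have h3 : (0:ℝ) ≤ 1 - 1 / 2 * (1 / 4) ^ 8 * y := by nlinarith
    have h4 := mul_le_mul_of_nonneg_right ih h3
    refine le_trans ?_ h4
    have h5 := nonneg 8
    have h6 : (1 - (2/3) * (1/4) ^ 8 * (1 - y / 4)) ≤
        (1 - (2/3) * (1/4 : ℝ) ^ 8 * (1 - y)) * (1 - 1 / 2 * (1 / 4) ^ 8 * y) := by
      nlinarith
    calc piM 8 * (1 - (2/3) * (1/4) ^ 8 * (1 - y / 4)) ≤
        piM 8 * ((1 - (2/3) * (1/4 : ℝ) ^ 8 * (1 - y)) * (1 - 1 / 2 * (1 / 4) ^ 8 * y)) :=
          mul_le_mul_of_nonneg_left h6 h5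
      _ = _ := by ring

end PimL

theorem pim : S_PIM := by
  intro m
  rcases lt_or_ge m 8 with h | h
  · interval_cases m <;> (unfold piM; norm_num [Finset.prod_range_succ])
  · obtain ⟨j, rfl⟩ := Nat.exists_eq_add_of_le h
    refine le_trans ?_ (PimL.tail j)
    have h1 : (0:ℝ) < (1/4) ^ j := by positivity
    have h2 : (1 - (2/3) * (1/4 : ℝ) ^ 8) ≤ (1 - (2/3) * (1/4) ^ 8 * (1 - (1/4) ^ j)) := by
      nlinarith
    refine le_trans ?_ (mul_le_mul_of_nonneg_left h2 (PimL.nonneg 8))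
    rw [PimL.eight]
    norm_num

namespace SchL

theorem sq2 (x : ZMod 2) : x * x = x := by
  revert x; decide

theorem neg2 (x : ZMod 2) : -x = x := by
  revert x; decide

end SchL

theorem sch : S_SCH := by
  intro α ι _ _ _ _ A θ hsym h0 h1
  let P : Matrix α α (ZMod 2) := fun v u : α => Lp A θ (Sum.inl v) (Sum.inl u)
  let B : Matrix α ι (ZMod 2) := fun (v : α) (i : ι) => A (Sum.inl v) (Sum.inr i)
  let C : Matrix ι α (ZMod 2) := fun (i : ι) (u : α) => A (Sum.inl u) (Sum.inr i)
  have hblk : Lp A θ = Matrix.fromBlocks P B C 1 := by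
    ext x y
    rcases x with v | i <;> rcases y with u | j
    · rfl
    · show Lp A θ (Sum.inl v) (Sum.inr j) = A (Sum.inl v) (Sum.inr j)
      unfold Lp
      rw [if_neg (by simp)]
    · show Lp A θ (Sum.inr i) (Sum.inl u) = A (Sum.inl u) (Sum.inr i)
      unfold Lp
      rw [if_neg (by simp)]
      exact hsym _ _
    · show Lp A θ (Sum.inr i) (Sum.inr j) = (1 : Matrix ι ι (ZMod 2)) i j
      unfold Lp
      by_cases hij : i = j
      · subst hij
        rw [if_pos rfl, Matrix.one_apply_eq, ← h1 i]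
        congr 1
        have h2 : ∑ x ∈ univ.erase (Sum.inr i : α ⊕ ι), A (Sum.inr i) x =
            ∑ x : α ⊕ ι, if x = Sum.inr i then 0 else A (Sum.inr i) x := by
          rw [← Finset.sum_erase_add _ _ (Finset.mem_univ (Sum.inr i : α ⊕ ι)), if_pos rfl, add_zero]
          apply Finset.sum_congr rfl
          intro x hx
          rw [if_neg (Finset.ne_of_mem_erase hx)]
        rw [h2, Fintype.sum_sum_type]
        have h3 : ∑ j : ι, (if (Sum.inr j : α ⊕ ι) = Sum.inr i then 0 else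
            A (Sum.inr i) (Sum.inr j)) = 0 := by
          apply Finset.sum_eq_zero
          intro j _
          by_cases hj : j = i
          · rw [if_pos (by rw [hj])]
          · rw [if_neg (fun h => hj (Sum.inr.inj h))]
            exact h0 i j (fun h => hj h.symm)
        rw [h3, add_zero]
        apply Finset.sum_congr rfl
        intro v _
        rw [if_neg (by simp)]
      · rw [if_neg (fun h => hij (Sum.inr.inj h).symm), Matrix.one_apply_ne hij]
        exact h0 i j hij
  rw [hblk, Matrix.det_fromBlocks_one₂₂]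
  congr 1
  ext v u
  rw [Matrix.sub_apply, Matrix.mul_apply, sub_eq_add_neg, SchL.neg2]
  show Lp A θ (Sum.inl v) (Sum.inl u) +
    ∑ i : ι, A (Sum.inl v) (Sum.inr i) * A (Sum.inl u) (Sum.inr i) = _
  by_cases huv : u = v
  · subst huv
    rw [if_pos rfl, add_zero]
    unfold Lp
    rw [if_pos rfl, if_pos rfl, add_assoc]
    congr 1
    have h2 : ∑ x ∈ univ.erase (Sum.inl u : α ⊕ ι), A (Sum.inl u) x =
        ∑ x : α ⊕ ι, if x = Sum.inl u then 0 else A (Sum.inl u) x := by
      rw [← Finset.sum_erase_add _ _ (Finset.mem_univ (Sum.inl u : α ⊕ ι)), if_pos rfl, add_zero]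
      apply Finset.sum_congr rfl
      intro x hx
      rw [if_neg (Finset.ne_of_mem_erase hx)]
    have h4 : ∑ x ∈ univ.erase u, A (Sum.inl u) (Sum.inl x) =
        ∑ x : α, if (Sum.inl x : α ⊕ ι) = Sum.inl u then 0 else A (Sum.inl u) (Sum.inl x) := by
      rw [← Finset.sum_erase_add _ _ (Finset.mem_univ u), if_pos rfl, add_zero]
      apply Finset.sum_congr rfl
      intro x hx
      rw [if_neg (fun h => Finset.ne_of_mem_erase hx (Sum.inl.inj h))]
    rw [h2, Fintype.sum_sum_type, h4, add_assoc]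
    have h5 : ∑ i : ι, (if (Sum.inr i : α ⊕ ι) = Sum.inl u then 0 else A (Sum.inl u) (Sum.inr i)) +
        ∑ i : ι, A (Sum.inl u) (Sum.inr i) * A (Sum.inl u) (Sum.inr i) = 0 := by
      rw [← Finset.sum_add_distrib]
      apply Finset.sum_eq_zero
      intro i _
      rw [if_neg (by simp), SchL.sq2]
      exact CharTwo.add_self_eq_zero _
    rw [h5, add_zero]
  · rw [if_neg huv]
    congr 1
    unfold Lp
    rw [if_neg huv, if_neg (fun h => huv (Sum.inl.inj h))]

end Pool.Agent.Helper35K9.OF
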