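import Pool.Agent.Helper35K9.OF.Stm

/-! Leaf ALT: invertible symmetric matrices with given diagonal over the field with two elements. -/

set_option autoImplicit false

namespace Pool.Agent.Helper35K9.OF

open Finset Matrix

namespace AltL

/-- the invertible symmetric matrices with given diagonal -/
abbrev SymD (W : Type) [Fintype W] [DecidableEq W] (v : W → ZMod 2) : Type :=
  {S : Matrix W W (ZMod 2) // (∀ i j, S i j = S j i) ∧ (∀ i, S i i = v i) ∧ S.det ≠ 0}

/-- their number -/
noncomputable def f (W : Type) [Fintype W] [DecidableEq W] (v : W → ZMod 2) : ℕ :=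
  Nat.card (SymD W v)

/-- the number of all invertible symmetric matrices -/
noncomputable def N (W : Type) [Fintype W] [DecidableEq W] : ℕ := ∑ v : W → ZMod 2, f W v

set_option linter.unusedSectionVars false
set_option linter.unusedSimpArgs false

section
variable {W W' : Type} [Fintype W] [DecidableEq W] [Fintype W'] [DecidableEq W']

theorem f_equiv (e : W ≃ W') (v : W' → ZMod 2) : f W' v = f W (v ∘ e) := by
  refine Nat.card_congr
    { toFun := fun S => ⟨S.1.submatrix e e, fun i j => S.2.1 _ _, fun i => S.2.2.1 _, ?_⟩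
      invFun := fun S => ⟨S.1.submatrix e.symm e.symm, fun i j => S.2.1 _ _, fun i => ?_, ?_⟩
      left_inv := fun S => ?_
      right_inv := fun S => ?_ }
  · rw [det_submatrix_equiv_self]
    exact S.2.2.2
  · have := S.2.2.1 (e.symm i)
    simpa using this
  · rw [det_submatrix_equiv_self]
    exact S.2.2.2
  · apply Subtype.ext
    ext i j
    simp
  · apply Subtype.ext
    ext i j
    simp

theorem N_equiv (e : W ≃ W') : N W' = N W := by
  unfold N
  refine Fintype.sum_equiv (e.symm.arrowCongr (Equiv.refl _)) _ _ fun v => ?_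
  rw [f_equiv e v]
  congr 1

/-- alternating matrices of odd size are singular -/
theorem det_fin {s : ℕ} (hs : Odd s) (S : Matrix (Fin s) (Fin s) (ZMod 2))
    (h1 : ∀ i j, S i j = S j i) (h2 : ∀ i, S i i = 0) : S.det = 0 := by
  let A : Matrix (Fin s) (Fin s) ℤ := of fun i j =>
    if i < j then ((S i j).val : ℤ) else if j < i then -((S i j).val : ℤ) else 0
  have hA0 : ∀ i j, A i j =
      if i < j then ((S i j).val : ℤ) else if j < i then -((S i j).val : ℤ) else 0 := fun i j => rfl
  have hA : Aᵀ = -A := by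
    ext i j
    rw [transpose_apply, Matrix.neg_apply, hA0, hA0]
    rcases lt_trichotomy i j with h | h | h
    · rw [if_neg (not_lt.2 h.le), if_pos h, if_pos h, h1 i j]
    · subst h
      simp
    · rw [if_pos h, if_neg (not_lt.2 h.le), if_pos h, h1 i j]
      simp
  have hd : A.det = 0 := by
    have h3 := congrArg Matrix.det hA
    rw [det_transpose, det_neg, Fintype.card_fin, hs.neg_one_pow] at h3
    linarith
  have h4 : S = (Int.castRingHom (ZMod 2)).mapMatrix A := by
    ext i j
    rw [RingHom.mapMatrix_apply, Matrix.map_apply, hA0]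
    rcases lt_trichotomy i j with h | h | h
    · rw [if_pos h]
      simp
    · subst h
      simp [h2]
    · rw [if_neg (not_lt.2 h.le), if_pos h]
      simp [ZMod.neg_eq_self_mod_two]
  rw [h4, ← RingHom.map_det, hd, map_zero]

theorem det_odd (hs : Odd (Fintype.card W)) (S : Matrix W W (ZMod 2))
    (h1 : ∀ i j, S i j = S j i) (h2 : ∀ i, S i i = 0) : S.det = 0 := by
  let e := (Fintype.equivFin W).symm
  rw [← det_submatrix_equiv_self e S]
  exact det_fin hs _ (fun i j => h1 _ _) fun i => h2 _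

theorem sq2 (x : ZMod 2) : x * x = x := by
  revert x
  decide

theorem add_self2 (x : ZMod 2) : x + x = 0 := by
  revert x
  decide

/-- a matrix with a corner -/
def bl (A : Matrix W W (ZMod 2)) (c : W → ZMod 2) (x : ZMod 2) : Matrix (W ⊕ Unit) (W ⊕ Unit) (ZMod 2) :=
  fromBlocks A (of fun i _ => c i) (of fun _ j => c j) (of fun _ _ => x)

theorem bl11 (A : Matrix W W (ZMod 2)) (c : W → ZMod 2) (x : ZMod 2) (i j : W) :
    bl A c x (Sum.inl i) (Sum.inl j) = A i j := rfl

theorem bl12 (A : Matrix W W (ZMod 2)) (c : W → ZMod 2) (x : ZMod 2) (i : W) (j : Unit) :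
    bl A c x (Sum.inl i) (Sum.inr j) = c i := rfl

theorem bl21 (A : Matrix W W (ZMod 2)) (c : W → ZMod 2) (x : ZMod 2) (i : Unit) (j : W) :
    bl A c x (Sum.inr i) (Sum.inl j) = c j := rfl

theorem bl22 (A : Matrix W W (ZMod 2)) (c : W → ZMod 2) (x : ZMod 2) (i j : Unit) :
    bl A c x (Sum.inr i) (Sum.inr j) = x := rfl

theorem bl_symm (A : Matrix W W (ZMod 2)) (c : W → ZMod 2) (x : ZMod 2)
    (h : ∀ i j, A i j = A j i) : ∀ i j, bl A c x i j = bl A c x j i := by
  rintro (i | i) (j | j)
  · exact h i j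
  · rfl
  · rfl
  · rfl

theorem bl_det (A : Matrix W W (ZMod 2)) (c : W → ZMod 2) :
    (bl A c 1).det = (of fun i j => A i j + c i * c j : Matrix W W (ZMod 2)).det := by
  have h1 : (of fun _ _ => 1 : Matrix Unit Unit (ZMod 2)) = 1 := by
    ext i j
    simp
  unfold bl
  rw [h1, det_fromBlocks_one₂₂]
  congr 1
  ext i j
  simp only [Matrix.sub_apply, Matrix.mul_apply, univ_unique, sum_singleton, of_apply]
  rw [sub_eq_add_neg, ZMod.neg_eq_self_mod_two]

/-- the block of the first indices -/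
def res (S : Matrix (W ⊕ Unit) (W ⊕ Unit) (ZMod 2)) : Matrix W W (ZMod 2) :=
  of fun i j => S (Sum.inl i) (Sum.inl j)

/-- the last column -/
def col (S : Matrix (W ⊕ Unit) (W ⊕ Unit) (ZMod 2)) : W → ZMod 2 :=
  fun i => S (Sum.inl i) (Sum.inr ())

theorem eq_bl (S : Matrix (W ⊕ Unit) (W ⊕ Unit) (ZMod 2)) (h : ∀ i j, S i j = S j i) :
    S = bl (res S) (col S) (S (Sum.inr ()) (Sum.inr ())) := by
  ext (i | i) (j | j)
  · rfl
  · rfl
  · exact h _ _
  · rfl

/-- the Schur complement -/
def sch (A : Matrix W W (ZMod 2)) (c : W → ZMod 2) : Matrix W W (ZMod 2) :=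
  of fun i j => A i j + c i * c j

theorem sch_sch (A : Matrix W W (ZMod 2)) (c : W → ZMod 2) : sch (sch A c) c = A := by
  ext i j
  simp only [sch, of_apply]
  rw [add_assoc, add_self2, add_zero]

/-- a digit one in the corner -/
theorem corner (v : W ⊕ Unit → ZMod 2) (hv : v (Sum.inr ()) = 1) :
    f (W ⊕ Unit) v = ∑ c : W → ZMod 2, f W fun i => v (Sum.inl i) + c i := by
  unfold f
  rw [← Nat.card_sigma]
  refine Nat.card_congr
    { toFun := fun S => ⟨col S.1, ⟨sch (res S.1) (col S.1), fun i j => ?_, fun i => ?_, ?_⟩⟩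
      invFun := fun q => ⟨bl (sch q.2.1 q.1) q.1 1, bl_symm _ _ _ fun i j => ?_, fun i => ?_, ?_⟩
      left_inv := fun S => ?_
      right_inv := fun q => ?_ }
  · show S.1 (Sum.inl i) (Sum.inl j) + col S.1 i * col S.1 j =
      S.1 (Sum.inl j) (Sum.inl i) + col S.1 j * col S.1 i
    rw [S.2.1 (Sum.inl i) (Sum.inl j), mul_comm]
  · show S.1 (Sum.inl i) (Sum.inl i) + col S.1 i * col S.1 i = v (Sum.inl i) + col S.1 i
    rw [S.2.2.1, sq2]
  · have h2 := S.2.2.2
    rw [eq_bl S.1 S.2.1, S.2.2.1, hv, bl_det] at h2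
    exact h2
  · show q.2.1 i j + q.1 i * q.1 j = q.2.1 j i + q.1 j * q.1 i
    rw [q.2.2.1 i j, mul_comm (q.1 i)]
  · rcases i with i | i
    · show q.2.1 i i + q.1 i * q.1 i = v (Sum.inl i)
      rw [q.2.2.2.1 i, sq2, add_assoc, add_self2, add_zero]
    · exact hv.symm
  · rw [bl_det]
    have h3 := q.2.2.2.2
    rw [← sch_sch q.2.1 q.1] at h3
    exact h3
  · apply Subtype.ext
    show bl (sch (sch (res S.1) (col S.1)) (col S.1)) (col S.1) 1 = S.1
    rw [sch_sch]
    conv_rhs => rw [eq_bl S.1 S.2.1, S.2.2.1, hv]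
  · refine Sigma.subtype_ext ?_ ?_
    · rfl
    · show sch (sch q.2.1 q.1) q.1 = q.2.1
      rw [sch_sch]

theorem corner_N (v : W ⊕ Unit → ZMod 2) (hv : v (Sum.inr ()) = 1) : f (W ⊕ Unit) v = N W := by
  rw [corner v hv]
  unfold N
  exact Fintype.sum_equiv (Equiv.addLeft fun i => v (Sum.inl i)) _ _ fun c => rfl

theorem bl_det_even (hW : Even (Fintype.card W)) (A : Matrix W W (ZMod 2)) (c : W → ZMod 2)
    (h1 : ∀ i j, A i j = A j i) (h2 : ∀ i, A i i = 0) : (bl A c 1).det = A.det := by
  have e1 : bl A c 1 = updateRow (bl A c 1) (Sum.inr ()) (Sum.elim c (fun _ => 0) +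
      Sum.elim (fun _ => 0) fun _ => 1) := by
    ext (i | i) (j | j) <;> simp [bl12, bl21, bl22, bl11, updateRow_apply]
  have e2 : updateRow (bl A c 1) (Sum.inr ()) (Sum.elim c fun _ => 0) = bl A c 0 := by
    ext (i | i) (j | j) <;> simp [bl12, bl21, bl22, bl11, updateRow_apply]
  have e3 : updateRow (bl A c 1) (Sum.inr ()) (Sum.elim (fun _ => 0) fun _ => 1) =
      fromBlocks A (of fun i (_ : Unit) => c i) 0 1 := by
    ext (i | i) (j | j) <;> simp [bl12, bl21, bl22, bl11, updateRow_apply]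
  rw [e1, det_updateRow_add, e2, e3, det_fromBlocks_zero₂₁, det_one, mul_one, det_odd, zero_add]
  · rw [Fintype.card_sum, Fintype.card_unit]
    exact hW.add_one
  · exact bl_symm _ _ _ h1
  · rintro (i | i)
    · exact h2 i
    · rfl

/-- even size -/
theorem even_corner (hW : Even (Fintype.card W)) :
    f (W ⊕ Unit) (Sum.elim (fun _ => 0) fun _ => 1) = 2 ^ Fintype.card W * f W fun _ => 0 := by
  have h2 : 2 ^ Fintype.card W = Nat.card (W → ZMod 2) := by
    rw [Nat.card_eq_fintype_card, Fintype.card_fun, ZMod.card]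
  unfold f
  rw [h2, ← Nat.card_prod]
  refine Nat.card_congr
    { toFun := fun S => ⟨col S.1, ⟨res S.1, fun i j => S.2.1 _ _, fun i => S.2.2.1 _, ?_⟩⟩
      invFun := fun q => ⟨bl q.2.1 q.1 1, bl_symm _ _ _ q.2.2.1, fun i => ?_, ?_⟩
      left_inv := fun S => ?_
      right_inv := fun q => ?_ }
  · have h2 := S.2.2.2
    rw [eq_bl S.1 S.2.1, S.2.2.1] at h2
    have h3 : (bl (res S.1) (col S.1) 1).det ≠ 0 := h2
    have h4 : (bl (res S.1) (col S.1) 1).det = (res S.1).det :=
      bl_det_even hW (res S.1) (col S.1) (fun i j => S.2.1 _ _) fun i => S.2.2.1 _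
    rwa [h4] at h3
  · rcases i with i | i
    · exact q.2.2.2.1 i
    · rfl
  · rw [bl_det_even hW _ _ q.2.2.1 q.2.2.2.1]
    exact q.2.2.2.2
  · apply Subtype.ext
    show bl (res S.1) (col S.1) 1 = S.1
    conv_rhs => rw [eq_bl S.1 S.2.1, S.2.2.1]
    rfl
  · refine Prod.ext rfl ?_
    apply Subtype.ext
    rfl

theorem f_odd (hW : Odd (Fintype.card W)) : f W (fun _ => 0) = 0 := by
  unfold f
  rw [Nat.card_eq_zero]
  left
  refine ⟨fun S => ?_⟩
  exact S.2.2.2 (det_odd hW S.1 S.2.1 S.2.2.1)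

end

theorem N_even {s : ℕ} (hs : Even s) : N (Fin s) = 2 ^ s * f (Fin s) fun _ => 0 := by
  rw [← corner_N (W := Fin s) (Sum.elim (fun _ => 0) fun _ => 1) rfl,
    even_corner (by rwa [Fintype.card_fin]), Fintype.card_fin]

theorem f_ne {s : ℕ} (v : Fin (s + 1) → ZMod 2) (hv : ∃ i, v i = 1) :
    f (Fin (s + 1)) v = N (Fin s) := by
  obtain ⟨i, hi⟩ := hv
  let e : Fin s ⊕ Unit ≃ Fin (s + 1) :=
    (Equiv.optionEquivSumPUnit (Fin s)).symm.trans (finSuccEquiv' i).symm
  rw [f_equiv e v]
  refine corner_N _ ?_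
  show v (e (Sum.inr ())) = 1
  have : e (Sum.inr ()) = i := by
    simp [e]
  rw [this, hi]

theorem N_succ (s : ℕ) : N (Fin (s + 1)) =
    (2 ^ (s + 1) - 1) * N (Fin s) + f (Fin (s + 1)) fun _ => 0 := by
  classical
  have h1 : ∀ v ∈ (univ : Finset (Fin (s + 1) → ZMod 2)).erase fun _ => 0,
      f (Fin (s + 1)) v = N (Fin s) := by
    intro v hv
    refine f_ne v ?_
    by_contra hcon
    push Not at hcon
    refine (Finset.mem_erase.1 hv).1 (funext fun i => ?_)
    have h2 : ∀ x : ZMod 2, x ≠ 1 → x = 0 := by decide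
    exact h2 _ (hcon i)
  unfold N at *
  rw [← Finset.sum_erase_add univ _ (Finset.mem_univ (fun _ : Fin (s + 1) => (0 : ZMod 2))),
    Finset.sum_congr rfl h1, Finset.sum_const, Finset.card_erase_of_mem (Finset.mem_univ _),
    Finset.card_univ, Fintype.card_fun, ZMod.card, Fintype.card_fin, smul_eq_mul]

theorem N_zero : N (Fin 0) = 1 := by
  unfold N f
  rw [Fintype.sum_unique, Nat.card_eq_one_iff_unique]
  refine ⟨⟨fun a b => Subtype.ext (by ext i; exact i.elim0)⟩, ⟨⟨0, fun i => i.elim0,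
    fun i => i.elim0, ?_⟩⟩⟩
  rw [det_isEmpty]
  decide

theorem piM_succ (m : ℕ) : piM (m + 1) = piM m * (1 - 1 / 2 ^ (2 * m + 1)) := by
  unfold piM
  rw [Finset.prod_range_succ]

/-- the number of all invertible symmetric matrices, for two consecutive sizes -/
theorem N_formula (m : ℕ) : (N (Fin (2 * m)) : ℝ) = piM m * 2 ^ (m * (2 * m + 1)) ∧
    (N (Fin (2 * m + 1)) : ℝ) = piM (m + 1) * 2 ^ ((m + 1) * (2 * m + 1)) := by
  have odd_step : ∀ m : ℕ, (N (Fin (2 * m)) : ℝ) = piM m * 2 ^ (m * (2 * m + 1)) →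
      (N (Fin (2 * m + 1)) : ℝ) = piM (m + 1) * 2 ^ ((m + 1) * (2 * m + 1)) := by
    intro m hm
    rw [N_succ, f_odd (by rw [Fintype.card_fin]; exact odd_two_mul_add_one m), add_zero,
      piM_succ]
    rw [Nat.cast_mul, hm, Nat.cast_sub Nat.one_le_two_pow]
    have h3 : (2 : ℝ) ^ ((m + 1) * (2 * m + 1)) = 2 ^ (m * (2 * m + 1)) * 2 ^ (2 * m + 1) := by
      rw [← pow_add]
      congr 1
      ring
    rw [h3, Nat.cast_pow, Nat.cast_ofNat, Nat.cast_one]
    have h2 : (2 : ℝ) ^ (2 * m + 1) ≠ 0 := by positivity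
    generalize (2 : ℝ) ^ (2 * m + 1) = y at h2 ⊢
    generalize (2 : ℝ) ^ (m * (2 * m + 1)) = x
    field_simp
  induction m with
  | zero =>
    have h0 : (N (Fin (2 * 0)) : ℝ) = piM 0 * 2 ^ (0 * (2 * 0 + 1)) := by
      show (N (Fin 0) : ℝ) = _
      rw [N_zero]
      simp [piM]
    exact ⟨h0, odd_step 0 h0⟩
  | succ m ih =>
    have h0 : (N (Fin (2 * (m + 1))) : ℝ) = piM (m + 1) * 2 ^ ((m + 1) * (2 * (m + 1) + 1)) := by
      have e1 := N_succ (2 * m + 1)
      have e2 := N_even (s := 2 * m + 1 + 1) ⟨m + 1, by ring⟩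
      set F := f (Fin (2 * m + 1 + 1)) (fun _ => 0) with hF
      set n := N (Fin (2 * m + 1)) with hn
      have h3 : 1 < 2 ^ (2 * m + 1 + 1) := Nat.one_lt_two_pow (by omega)
      have h4 : F = n := by
        obtain ⟨t, ht⟩ : ∃ t, 2 ^ (2 * m + 1 + 1) = t + 2 := ⟨_, (Nat.sub_add_cancel h3).symm⟩
        rw [ht] at e1 e2
        rw [e2] at e1
        have h5 : (t + 1) * F = (t + 1) * n := by
          have : t + 2 - 1 = t + 1 := rfl
          rw [this] at e1
          nlinarith
        exact Nat.eq_of_mul_eq_mul_left (by omega) h5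
      show (N (Fin (2 * m + 1 + 1)) : ℝ) = _
      rw [e2, h4, Nat.cast_mul, ih.2]
      push_cast
      have h6 : (m + 1) * (2 * (m + 1) + 1) = (2 * m + 1 + 1) + (m + 1) * (2 * m + 1) := by ring
      rw [h6, pow_add]
      ring
    exact ⟨h0, odd_step (m + 1) h0⟩

theorem card_prs (s : ℕ) : Fintype.card (Prs s) = ∑ j : Fin s, (j : ℕ) := by
  have e : Prs s ≃ Σ j : Fin s, Fin j :=
    { toFun := fun p => ⟨p.1.2, ⟨p.1.1, p.2⟩⟩
      invFun := fun q => ⟨(⟨q.2, q.2.2.trans q.1.2⟩, q.1), q.2.2⟩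
      left_inv := fun p => rfl
      right_inv := fun q => rfl }
  rw [Fintype.card_congr e, Fintype.card_sigma]
  simp

theorem card_prs_succ (s : ℕ) : Fintype.card (Prs (s + 1)) = Fintype.card (Prs s) + s := by
  rw [card_prs, card_prs, Fin.sum_univ_castSucc]
  simp

theorem card_prs' (m : ℕ) : Fintype.card (Prs (2 * m + 1)) = m * (2 * m + 1) ∧
    Fintype.card (Prs (2 * m + 2)) = (m + 1) * (2 * m + 1) := by
  induction m with
  | zero =>
    have h : Fintype.card (Prs 0) = 0 := by
      rw [card_prs]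
      simp
    constructor
    · show Fintype.card (Prs (0 + 1)) = _
      rw [card_prs_succ, h]
    · show Fintype.card (Prs (0 + 1 + 1)) = _
      rw [card_prs_succ, card_prs_succ, h]
  | succ m ih =>
    have h1 : Fintype.card (Prs (2 * (m + 1) + 1)) = (m + 1) * (2 * (m + 1) + 1) := by
      show Fintype.card (Prs (2 * m + 2 + 1)) = _
      rw [card_prs_succ, ih.2]
      ring
    refine ⟨h1, ?_⟩
    show Fintype.card (Prs (2 * (m + 1) + 1 + 1)) = _
    rw [card_prs_succ, h1]
    ring

theorem count_eq (s : ℕ) (M : Matrix (Fin s) (Fin s) (ZMod 2)) (hM : ∀ i j, M i j = M j i) :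
    Nat.card {a : Prs s → ZMod 2 // (M + alt a).det ≠ 0} = f (Fin s) fun i => M i i := by
  unfold f
  refine Nat.card_congr
    { toFun := fun a => ⟨M + alt a.1, fun i j => ?_, fun i => ?_, a.2⟩
      invFun := fun S => ⟨fun p => S.1 p.1.1 p.1.2 - M p.1.1 p.1.2, ?_⟩
      left_inv := fun a => ?_
      right_inv := fun S => ?_ }
  · simp only [Matrix.add_apply]
    rw [hM i j]
    congr 1
    unfold alt
    rcases lt_trichotomy i j with h | h | h
    · rw [dif_pos h, dif_neg (by omega), dif_pos h]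
    · subst h
      rfl
    · rw [dif_neg (by omega), dif_pos h, dif_pos h]
  · simp [alt]
  · have e : M + alt (fun p : Prs s => S.1 p.1.1 p.1.2 - M p.1.1 p.1.2) = S.1 := by
      ext i j
      simp only [Matrix.add_apply]
      unfold alt
      rcases lt_trichotomy i j with h | h | h
      · rw [dif_pos h]
        simp
      · subst h
        rw [dif_neg (lt_irrefl _), dif_neg (lt_irrefl _), add_zero]
        exact (S.2.2.1 i).symm
      · rw [dif_neg (by omega), dif_pos h, hM i j, S.2.1 i j]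
        simp
    rw [e]
    exact S.2.2.2
  · apply Subtype.ext
    funext p
    simp only [Matrix.add_apply]
    unfold alt
    rw [dif_pos p.2]
    simp
  · apply Subtype.ext
    ext i j
    simp only [Matrix.add_apply]
    unfold alt
    rcases lt_trichotomy i j with h | h | h
    · rw [dif_pos h]
      simp
    · subst h
      rw [dif_neg (lt_irrefl _), dif_neg (lt_irrefl _), add_zero]
      exact (S.2.2.1 i).symm
    · rw [dif_neg (by omega), dif_pos h, hM i j, S.2.1 i j]
      simp

end AltL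

open AltL in
theorem alt_leaf : S_ALT := by
  intro s M hM hv
  have h1 : (univ.filter fun a : Prs s → ZMod 2 => (M + alt a).det ≠ 0).card =
      f (Fin s) fun i => M i i := by
    rw [← count_eq s M hM, Nat.card_eq_fintype_card, Fintype.card_subtype]
  have h2 : (f (Fin s) (fun i => M i i) : ℝ) = piM (s / 2) * 2 ^ (Fintype.card (Prs s)) := by
    rcases Nat.eq_zero_or_pos s with h0 | h0
    · subst h0
      have e1 := N_even (s := 0) (by decide)
      rw [N_zero, pow_zero, one_mul] at e1
      have e2 : (fun i : Fin 0 => M i i) = fun _ => 0 := funext fun i => i.elim0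
      rw [e2, ← e1]
      have e3 : Fintype.card (Prs 0) = 0 := by
        rw [card_prs]
        simp
      rw [e3]
      simp [piM]
    · obtain ⟨t, rfl⟩ : ∃ t, s = t + 1 := ⟨s - 1, by omega⟩
      have key : f (Fin (t + 1)) (fun i => M i i) = N (Fin t) := by
        by_cases h : ∃ i, M i i = 1
        · exact f_ne _ h
        · have hev : Even (t + 1) := by
            rcases hv with hv | hv
            · exact absurd hv h
            · exact hv
          have e2 : (fun i : Fin (t + 1) => M i i) = fun _ => 0 := by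
            funext i
            have h2 : ∀ x : ZMod 2, x ≠ 1 → x = 0 := by decide
            exact h2 _ fun h3 => h ⟨i, h3⟩
          rw [e2]
          have e1 := N_succ t
          have e2 := N_even hev
          have h3 : 1 < 2 ^ (t + 1) := Nat.one_lt_two_pow (by omega)
          obtain ⟨r, hr⟩ : ∃ r, 2 ^ (t + 1) = r + 2 := ⟨_, (Nat.sub_add_cancel h3).symm⟩
          rw [hr] at e1 e2
          rw [e2] at e1
          have h5 : (r + 1) * f (Fin (t + 1)) (fun _ => 0) = (r + 1) * N (Fin t) := by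
            have : r + 2 - 1 = r + 1 := rfl
            rw [this] at e1
            nlinarith
          exact Nat.eq_of_mul_eq_mul_left (by omega) h5
      rw [key]
      rcases Nat.even_or_odd' t with ⟨m, rfl | rfl⟩
      · have e : (2 * m + 1) / 2 = m := by omega
        rw [e, (card_prs' m).1, (N_formula m).1]
      · have e : (2 * m + 1 + 1) / 2 = m + 1 := by omega
        rw [e, (card_prs' m).2, (N_formula m).2]
  rw [← h2, ← h1]

end Pool.Agent.Helper35K9.OF
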