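import Pool.Agent.Helper35K9.OF.Stm
import Pool.Agent.Helper35K9.LW.Fam
import Pool.Agent.Y983.PP.Supp

/-! The matrix of the twists by products of primes whose Frobenius has order four. -/

set_option autoImplicit false

namespace Pool.Agent.Helper35K9.OF

open Finset
open Pool.Agent.Y697.MQ (leg leg_ne leg_congr leg_eq_zero leg_mul leg_sq_eq OP Pr Pr_iff Pr_prod gA Gd recip gA_zero)
open Pool.Agent.Helper35K9.TW
open Pool.Agent.Helper35K9.LW.Rep (Primary symbol op_iff symbol_eq leg_neg_left inert_leg leg_i)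
open Pool.Agent.Y697.PP (Mt)
open Pool.Agent.Helper35K9.TW.PP (gA_symm)

/-- the supplementary law -/
theorem supp' {q : GaussianInt} (hq : OP q) : leg q ⟨1, 1⟩ = cl q := by
  rw [cl_eq_sg hq.pm, leg_eq_qs]
  exact Pool.Agent.Y983.PP.t_SUPP q hq.pr ((Pr_iff q).1 hq.pm)

/-- the logarithm of a sign -/
def lg (z : ℤ) : ZMod 2 := if z = -1 then 1 else 0

theorem lg_mul {z w : ℤ} (hz : z = 1 ∨ z = -1) (hw : w = 1 ∨ w = -1) : lg (z * w) = lg z + lg w := by
  rcases hz with rfl | rfl <;> rcases hw with rfl | rfl <;> decide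

theorem lg_prod {κ : Type} (s : Finset κ) (f : κ → ℤ) (h : ∀ k ∈ s, f k = 1 ∨ f k = -1) :
    lg (∏ k ∈ s, f k) = ∑ k ∈ s, lg (f k) ∧ (∏ k ∈ s, f k = 1 ∨ ∏ k ∈ s, f k = -1) := by
  classical
  induction s using Finset.induction_on with
  | empty => exact ⟨by rw [prod_empty, sum_empty]; decide, Or.inl prod_empty⟩
  | insert a s ha ih =>
    obtain ⟨h1, h2⟩ := ih fun k hk => h k (mem_insert_of_mem hk)
    have h3 := h a (mem_insert_self _ _)
    rw [prod_insert ha, sum_insert ha]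
    refine ⟨by rw [lg_mul h3 h2, h1], ?_⟩
    rcases h3 with h3 | h3 <;> rcases h2 with h2 | h2 <;> rw [h3, h2] <;> norm_num

theorem lg_inj {z : ℤ} (hz : z = 1 ∨ z = -1) : (lg z = 1 ↔ z = -1) := by
  rcases hz with rfl | rfl <;> decide

theorem gA_lg (v u : GaussianInt) : gA v u = lg (leg u v) := rfl

theorem gL_lg (v : GaussianInt) : gL v = lg (cl v) := rfl

theorem leg_prod {κ : Type} {q : GaussianInt} (hq : Prime q) (s : Finset κ) (f : κ → GaussianInt) :
    leg q (∏ k ∈ s, f k) = ∏ k ∈ s, leg q (f k) := by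
  classical
  induction s using Finset.induction_on with
  | empty =>
    rw [prod_empty, prod_empty]
    unfold leg
    rw [if_neg fun h => hq.not_isUnit (isUnit_of_dvd_one h), if_pos ⟨1, by simp⟩]
  | insert a s ha ih => rw [prod_insert ha, prod_insert ha, leg_mul hq, ih]

/-- an inert prime with sign minus is a primary prime -/
theorem inert_OP4 {p : ℕ} (hp : p.Prime) (h4 : p % 4 = 3) : OP (-(p : GaussianInt)) := by
  have : Fact p.Prime := ⟨hp⟩
  have h1 : Prime (p : GaussianInt) :=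
    GaussianInt.prime_of_nat_prime_of_mod_four_eq_three p (by omega)
  have hre : (-(p : GaussianInt)).re = -(p : ℤ) := by simp
  have him : (-(p : GaussianInt)).im = 0 := by simp
  refine ⟨h1.neg, ?_⟩
  rw [Pr_iff2, hre, him]
  omega

/-- the row sum of a prime -/
theorem row_sum {Q : Finset GaussianInt} (hQ : ∀ x ∈ Q, OP x) {q : GaussianInt} (hq : OP q)
    (hqQ : q ∉ Q) :
    gL q + ∑ x ∈ Q, gA q x = lg (leg q (⟨1, 1⟩ * ∏ x ∈ Q, x)) ∧
      (leg q (⟨1, 1⟩ * ∏ x ∈ Q, x) = 1 ∨ leg q (⟨1, 1⟩ * ∏ x ∈ Q, x) = -1) := by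
  have hne : ∀ x ∈ Q, q ≠ x := fun x hx h => hqQ (h ▸ hx)
  have h1 : ∀ x ∈ Q, leg q x = 1 ∨ leg q x = -1 := fun x hx =>
    leg_ne fun h => hne x hx (hq.dvd (hQ x hx) h)
  have h2 : leg q ⟨1, 1⟩ = 1 ∨ leg q ⟨1, 1⟩ = -1 := leg_ne hq.odd
  obtain ⟨h3, h4⟩ := lg_prod Q (fun x => leg q x) h1
  rw [leg_mul hq.pr, leg_prod hq.pr]
  refine ⟨?_, ?_⟩
  · rw [lg_mul h2 h4, h3, supp' hq, gL_lg]
    congr 1
    refine sum_congr rfl fun x hx => ?_
    rw [gA_lg, recip hq (hQ x hx) (hne x hx)]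
  · rcases h2 with h2 | h2 <;> rcases h4 with h4 | h4 <;> rw [h2, h4] <;> norm_num

/-- the primes of order four -/
def P4 (δ : GaussianInt) (p : ℕ) : Prop := p % 4 = 3 ∧ symbol (p : GaussianInt) δ = -1

section matrix

variable {Q : Finset GaussianInt} {s : ℕ} (e : Fin s ≃ Q)

/-- the symmetric matrix of `δ` -/
noncomputable def Mx : Matrix (Fin s) (Fin s) (ZMod 2) :=
  Lp (fun v u => gA (e v) (e u)) (fun v => gL (e v))

/-- the vector of a prime -/
noncomputable def bb (p : ℕ) (k : Prs s) : ZMod 2 :=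
  gA (-(p : GaussianInt)) (e k.1.1) * gA (-(p : GaussianInt)) (e k.1.2)

theorem Lp_symm {W : Type} [Fintype W] [DecidableEq W] {A : W → W → ZMod 2} {θ : W → ZMod 2}
    (hA : ∀ x y, A x y = A y x) (v u : W) : Lp A θ v u = Lp A θ u v := by
  unfold Lp
  by_cases h : u = v
  · rw [h]
  · rw [if_neg h, if_neg (Ne.symm h), hA]

theorem sum_alt {ι : Type} (t : Finset ι) (f : ι → Prs s → ZMod 2) :
    (alt (∑ i ∈ t, f i) : Matrix (Fin s) (Fin s) (ZMod 2)) = ∑ i ∈ t, alt (f i) := by
  ext v u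
  rw [Matrix.sum_apply]
  unfold alt
  by_cases h : v < u
  · simp only [dif_pos h, Finset.sum_apply]
  · by_cases h' : u < v
    · simp only [dif_neg h, dif_pos h', Finset.sum_apply]
    · simp only [dif_neg h, dif_neg h', Finset.sum_const_zero]

open Classical in
/-- **The determinant of the union.** -/
theorem det_union (hsch : S_SCH) (hQ : ∀ x ∈ Q, OP x) {d : ℕ}
    (hd : ∀ p ∈ d.primeFactors, p % 4 = 3 ∧ leg (-(p : GaussianInt)) (⟨1, 1⟩ * ∏ x ∈ Q, x) = -1) :
    Disjoint Q (d.primeFactors.image fun p : ℕ => -(p : GaussianInt)) ∧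
    (Mt gA gL (Q ∪ d.primeFactors.image fun p : ℕ => -(p : GaussianInt))).det =
      (Mx e + alt (∑ p ∈ d.primeFactors, bb e p)).det := by
  have hO : ∀ p ∈ d.primeFactors, OP (-(p : GaussianInt)) := fun p hp =>
    inert_OP4 (Nat.prime_of_mem_primeFactors hp) (hd p hp).1
  have hnot : ∀ p ∈ d.primeFactors, -(p : GaussianInt) ∉ Q := by
    intro p hp h
    have h1 := (hd p hp).2
    rw [(leg_eq_zero).2 ((dvd_prod_of_mem (fun x : GaussianInt => x) h).mul_left _)] at h1
    exact absurd h1 (by norm_num)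
  refine ⟨?_, ?_⟩
  · rw [disjoint_left]
    intro x hx hx'
    obtain ⟨p, hp, rfl⟩ := mem_image.1 hx'
    exact hnot p hp hx
  set f : Fin s ⊕ d.primeFactors → GaussianInt :=
    Sum.elim (fun v => (e v : GaussianInt)) (fun p => -((p : ℕ) : GaussianInt)) with hf
  have hfinj : Function.Injective f := by
    rintro (v | p) (u | q) h
    · exact congrArg Sum.inl (e.injective (Subtype.ext h))
    · exfalso
      have h' : (e v : GaussianInt) = -((q : ℕ) : GaussianInt) := h
      exact hnot q q.2 (h' ▸ (e v).2)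
    · exfalso
      have h' : -((p : ℕ) : GaussianInt) = (e u : GaussianInt) := h
      exact hnot p p.2 (h' ▸ (e u).2)
    · have h' : -((p : ℕ) : GaussianInt) = -((q : ℕ) : GaussianInt) := h
      exact congrArg Sum.inr (Subtype.ext (by exact_mod_cast neg_injective h'))
  have hfim : univ.image f = Q ∪ d.primeFactors.image fun p : ℕ => -(p : GaussianInt) := by
    ext x
    simp only [mem_image, mem_univ, true_and, mem_union]
    constructor
    · rintro ⟨v | p, rfl⟩
      · exact Or.inl (e v).2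
      · exact Or.inr ⟨p, p.2, rfl⟩
    · rintro (h | ⟨p, hp, rfl⟩)
      · refine ⟨Sum.inl (e.symm ⟨x, h⟩), ?_⟩
        show ((e (e.symm ⟨x, h⟩) : Q) : GaussianInt) = x
        rw [Equiv.apply_symm_apply]
      · exact ⟨Sum.inr ⟨p, hp⟩, rfl⟩
  have hfO : ∀ x, OP (f x) := by
    rintro (v | p)
    · exact hQ _ (e v).2
    · exact hO p p.2
  rw [Pool.Agent.Y697.PP.det_Mt gA gL _ f hfinj hfim]
  have h1 := hsch (Fin s) d.primeFactors (fun x y => gA (f x) (f y)) (fun x => gL (f x))
    (fun x y => gA_symm (hfO x) (hfO y)) ?_ ?_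
  · have h2 : Pool.Agent.Y697.PP.MW (fun x y => gA (f x) (f y)) (fun x => gL (f x)) =
        Lp (fun x y => gA (f x) (f y)) (fun x => gL (f x)) := by
      ext v u
      unfold Pool.Agent.Y697.PP.MW Lp
      congr!
    rw [h2, h1]
    congr 1
    ext v u
    rw [sum_alt, Matrix.add_apply, Matrix.sum_apply]
    congr 1
    by_cases h3 : u = v
    · rw [if_pos h3, h3]
      symm
      refine sum_eq_zero fun p _ => ?_
      unfold alt
      rw [dif_neg (lt_irrefl _), dif_neg (lt_irrefl _)]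
    · rw [if_neg h3, ← Finset.sum_coe_sort d.primeFactors]
      refine sum_congr rfl fun p _ => ?_
      have h4 : ∀ w : Fin s, gA (f (Sum.inl w)) (f (Sum.inr p)) =
          gA (-((p : ℕ) : GaussianInt)) (e w) := fun w => gA_symm (hQ _ (e w).2) (hO p p.2)
      rw [h4, h4]
      unfold alt bb
      rcases lt_or_gt_of_ne h3 with h5 | h5
      · rw [dif_neg (not_lt.2 h5.le), dif_pos h5]
        exact mul_comm _ _
      · rw [dif_pos h5]
  · intro p q hpq
    have h3 : (p : ℕ) ≠ q := fun h => hpq (Subtype.ext h)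
    have hp := Nat.prime_of_mem_primeFactors p.2
    have hq := Nat.prime_of_mem_primeFactors q.2
    refine (gA_zero (hO p p.2) (hO q q.2) (fun h => h3 (by exact_mod_cast neg_injective h)) ?_).1
    rw [leg_neg_left]
    have h4 := inert_leg hp (hd p p.2).1 (-((q : ℕ) : ℤ)) (by
      rw [dvd_neg]
      intro h
      have h5 : (p : ℕ) ∣ q := by exact_mod_cast h
      exact h3 ((Nat.prime_dvd_prime_iff_eq hp hq).1 h5))
    push_cast at h4
    exact h4
  · intro p
    have h3 := (row_sum hQ (hO p p.2) (hnot p p.2)).1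
    rw [(hd p p.2).2] at h3
    have h4 : ∑ v : Fin s, gA (f (Sum.inr p)) (f (Sum.inl v)) =
        ∑ x ∈ Q, gA (-((p : ℕ) : GaussianInt)) x := by
      rw [← Finset.sum_coe_sort Q]
      exact Equiv.sum_comp e (fun x : Q => gA (-((p : ℕ) : GaussianInt)) x)
    rw [h4]
    exact h3

end matrix

end Pool.Agent.Helper35K9.OF
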