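import Pool.Agent.Helper35K9.OF.Stm

/-!
# DEN: equidistribution of an additive function with values in a finite elementary 2-group
-/

set_option autoImplicit false

namespace Pool.Agent.Helper35K9.OF

open Finset Filter Topology
open scoped Classical

namespace DenL

/-- the sign -/
noncomputable def sg (a : ZMod 2) : ℝ := if a = 1 then -1 else 1

lemma zmod2 (a : ZMod 2) : a = 0 ∨ a = 1 := by
  revert a; decide

lemma sg_zero : sg 0 = 1 := by
  unfold sg; rw [if_neg (by decide)]

lemma sg_one : sg 1 = -1 := by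
  unfold sg; rw [if_pos rfl]

lemma sg_add (a b : ZMod 2) : sg (a + b) = sg a * sg b := by
  rcases zmod2 a with rfl | rfl <;> rcases zmod2 b with rfl | rfl
  · simp [sg_zero]
  · simp [sg_zero]
  · simp [sg_zero]
  · rw [show (1 : ZMod 2) + 1 = 0 by decide, sg_zero, sg_one]; norm_num

lemma sg_sum {ι : Type} (s : Finset ι) (f : ι → ZMod 2) : sg (∑ i ∈ s, f i) = ∏ i ∈ s, sg (f i) := by
  induction s using Finset.induction_on with
  | empty => simp [sg_zero]
  | insert a s ha ih => rw [Finset.sum_insert ha, Finset.prod_insert ha, sg_add, ih]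

lemma sg_abs (a : ZMod 2) : |sg a| = 1 := by
  rcases zmod2 a with rfl | rfl
  · simp [sg_zero]
  · simp [sg_one]

variable {κ : Type} [Fintype κ]

/-- the pairing -/
def dot (φ w : κ → ZMod 2) : ZMod 2 := ∑ k, φ k * w k

lemma dot_add (φ v w : κ → ZMod 2) : dot φ (v + w) = dot φ v + dot φ w := by
  unfold dot
  rw [← Finset.sum_add_distrib]
  exact Finset.sum_congr rfl (fun k _ => by rw [Pi.add_apply, mul_add])

lemma dot_sum {ι : Type} (φ : κ → ZMod 2) (s : Finset ι) (f : ι → κ → ZMod 2) :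
    dot φ (∑ i ∈ s, f i) = ∑ i ∈ s, dot φ (f i) := by
  induction s using Finset.induction_on with
  | empty => simp [dot]
  | insert a s ha ih => rw [Finset.sum_insert ha, Finset.sum_insert ha, dot_add, ih]

lemma orth (w : κ → ZMod 2) :
    ∑ φ : κ → ZMod 2, sg (dot φ w) = if w = 0 then 2 ^ Fintype.card κ else 0 := by
  have h1 : ∑ φ : κ → ZMod 2, sg (dot φ w) = ∏ k : κ, ∑ a : ZMod 2, sg (a * w k) := by
    rw [Finset.prod_univ_sum, Fintype.piFinset_univ]
    exact Finset.sum_congr rfl (fun φ _ => by rw [dot, sg_sum])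
  rw [h1]
  have h2 : ∀ k, ∑ a : ZMod 2, sg (a * w k) = if w k = 0 then 2 else 0 := by
    intro k
    have h3 : ∑ a : ZMod 2, sg (a * w k) = sg (0 * w k) + sg (1 * w k) := by
      have hu : (Finset.univ : Finset (ZMod 2)) = {0, 1} := by decide
      rw [hu, Finset.sum_pair (by decide)]
    rw [h3, zero_mul, one_mul, sg_zero]
    rcases zmod2 (w k) with h | h
    · rw [h, sg_zero, if_pos rfl]; norm_num
    · rw [h, sg_one, if_neg (by decide)]; norm_num
  rw [Finset.prod_congr rfl (fun k _ => h2 k)]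
  split_ifs with h
  · subst h
    simp
  · obtain ⟨k, hk⟩ := Function.ne_iff.mp h
    exact Finset.prod_eq_zero (Finset.mem_univ k) (if_neg hk)

/-- the values of the multiplicative functions -/
noncomputable def ff (P : ℕ → Prop) (b : ℕ → κ → ZMod 2) (φ : κ → ZMod 2) (x : ℝ) (n : ℕ) : ℝ :=
  if n ∈ Dd P then (∏ p ∈ n.primeFactors, sg (dot φ (b p))) * (n : ℝ) ^ (-x) else 0

variable (P : ℕ → Prop) (b : ℕ → κ → ZMod 2) (φ : κ → ZMod 2) (x : ℝ)

omit [Fintype κ] in
lemma mem_Dd_one : (1 : ℕ) ∈ Dd P :=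
  ⟨squarefree_one, fun _ hp h => absurd (Nat.dvd_one.mp h) hp.ne_one⟩

omit [Fintype κ] in
lemma mem_Dd_mul {m n : ℕ} (h : m.Coprime n) : m * n ∈ Dd P ↔ m ∈ Dd P ∧ n ∈ Dd P := by
  constructor
  · rintro ⟨h1, h2⟩
    rw [Nat.squarefree_mul_iff] at h1
    exact ⟨⟨h1.2.1, fun p hp hd => h2 p hp (dvd_mul_of_dvd_left hd n)⟩,
      ⟨h1.2.2, fun p hp hd => h2 p hp (dvd_mul_of_dvd_right hd m)⟩⟩
  · rintro ⟨⟨h1, h2⟩, ⟨h3, h4⟩⟩
    refine ⟨Nat.squarefree_mul_iff.mpr ⟨h, h1, h3⟩, fun p hp hd => ?_⟩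
    rcases (Nat.Prime.dvd_mul hp).mp hd with h5 | h5
    · exact h2 p hp h5
    · exact h4 p hp h5

lemma ff_zero : ff P b φ x 0 = 0 := by
  unfold ff
  rw [if_neg]
  rintro ⟨h, _⟩
  exact not_squarefree_zero h

lemma ff_one : ff P b φ x 1 = 1 := by
  unfold ff
  rw [if_pos (mem_Dd_one P)]
  simp

lemma ff_mul {m n : ℕ} (h : m.Coprime n) : ff P b φ x (m * n) = ff P b φ x m * ff P b φ x n := by
  unfold ff
  by_cases hm : m ∈ Dd P
  · by_cases hn : n ∈ Dd P
    · rw [if_pos hm, if_pos hn, if_pos ((mem_Dd_mul P h).mpr ⟨hm, hn⟩), h.primeFactors_mul,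
        Finset.prod_union h.disjoint_primeFactors, Nat.cast_mul,
        Real.mul_rpow (Nat.cast_nonneg m) (Nat.cast_nonneg n)]
      ring
    · rw [if_neg hn, if_neg (fun hh => hn ((mem_Dd_mul P h).mp hh).2), mul_zero]
  · rw [if_neg hm, if_neg (fun hh => hm ((mem_Dd_mul P h).mp hh).1), zero_mul]

lemma ff_abs (n : ℕ) : |ff P b φ x n| ≤ (n : ℝ) ^ (-x) := by
  unfold ff
  split_ifs with h
  · rw [abs_mul, Finset.abs_prod, Finset.prod_congr rfl (fun p _ => sg_abs _), Finset.prod_const_one,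
      one_mul, abs_of_nonneg (Real.rpow_nonneg (Nat.cast_nonneg n) _)]
  · rw [abs_zero]; exact Real.rpow_nonneg (Nat.cast_nonneg n) _

variable {x} (hx : 1 < x)

include hx in
lemma ff_summable : Summable (ff P b φ x) := by
  have h := Real.summable_nat_rpow.mpr (show -x < -1 by linarith)
  exact Summable.of_norm_bounded h (fun n => by rw [Real.norm_eq_abs]; exact ff_abs P b φ x n)

include hx in
lemma ff_summable_norm : Summable (fun n => ‖ff P b φ x n‖) := (ff_summable P b φ hx).norm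

/-- the local factor -/
noncomputable def loc (P : ℕ → Prop) (b : ℕ → κ → ZMod 2) (φ : κ → ZMod 2) (x : ℝ) (p : ℕ) : ℝ :=
  1 + if P p then sg (dot φ (b p)) * (p : ℝ) ^ (-x) else 0

lemma loc_eq {p : ℕ} (hp : p.Prime) : ∑' e, ff P b φ x (p ^ e) = loc P b φ x p := by
  rw [tsum_eq_sum (s := Finset.range 2)]
  · rw [Finset.sum_range_succ, Finset.sum_range_one, pow_zero, pow_one, ff_one]
    unfold loc ff
    congr 1
    by_cases h : P p
    · have h1 : p ∈ Dd P := ⟨hp.squarefree, fun q hq hd => by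
        rwa [(Nat.prime_dvd_prime_iff_eq hq hp).mp hd]⟩
      rw [if_pos h, if_pos h1, hp.primeFactors, Finset.prod_singleton]
    · rw [if_neg h, if_neg (fun hh => h (hh.2 p hp dvd_rfl))]
  · intro e he
    rw [Finset.mem_range, not_lt] at he
    unfold ff
    rw [if_neg]
    rintro ⟨h, _⟩
    have h2 := (Nat.squarefree_pow_iff hp.ne_one (by omega)).mp h
    omega

include hx in
lemma euler : Tendsto (fun n : ℕ => ∏ p ∈ n.primesBelow, loc P b φ x p) atTop
    (𝓝 (∑' n, ff P b φ x n)) := by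
  have h := EulerProduct.eulerProduct (f := ff P b φ x) (ff_one P b φ x)
    (fun {m n} h => ff_mul P b φ x h) (ff_summable_norm P b φ hx) (ff_zero P b φ x)
  refine h.congr (fun n => ?_)
  exact Finset.prod_congr rfl (fun p hp => loc_eq P b φ (Nat.prime_of_mem_primesBelow hp))

/-- the terms of the exponent -/
noncomputable def tt (P : ℕ → Prop) (b : ℕ → κ → ZMod 2) (φ : κ → ZMod 2) (x : ℝ) (p : ℕ) : ℝ :=
  if p.Prime ∧ P p ∧ dot φ (b p) = 1 then (p : ℝ) ^ (-x) else 0

lemma tt_nonneg (x : ℝ) (p : ℕ) : 0 ≤ tt P b φ x p := by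
  unfold tt; split_ifs
  · exact Real.rpow_nonneg (Nat.cast_nonneg p) _
  · exact le_rfl

include hx in
lemma u_le_one {p : ℕ} (hp : p.Prime) : (p : ℝ) ^ (-x) ≤ 1 :=
  Real.rpow_le_one_of_one_le_of_nonpos (by exact_mod_cast hp.one_lt.le) (by linarith)

include hx in
lemma loc_nonneg {p : ℕ} (hp : p.Prime) : 0 ≤ loc P b φ x p := by
  unfold loc
  have h := u_le_one hx hp
  have h0 : 0 ≤ (p : ℝ) ^ (-x) := Real.rpow_nonneg (Nat.cast_nonneg p) _
  split_ifs
  · rcases zmod2 (dot φ (b p)) with h1 | h1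
    · rw [h1, sg_zero]; linarith
    · rw [h1, sg_one]; linarith
  · norm_num

lemma dot_zero_left (w : κ → ZMod 2) : dot 0 w = 0 := by
  unfold dot; simp

lemma loc_le {p : ℕ} (hp : p.Prime) : loc P b φ x p ≤ loc P b 0 x p * Real.exp (-(tt P b φ x p)) := by
  unfold loc tt
  have h0 : 0 ≤ (p : ℝ) ^ (-x) := Real.rpow_nonneg (Nat.cast_nonneg p) _
  rw [dot_zero_left, sg_zero, one_mul]
  by_cases hP : P p
  · rw [if_pos hP, if_pos hP]
    rcases zmod2 (dot φ (b p)) with h1 | h1
    · rw [if_neg (fun hh => by rw [h1] at hh; exact absurd hh.2.2 (by decide)), h1, sg_zero]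
      simp
    · rw [if_pos ⟨hp, hP, h1⟩, h1, sg_one]
      have h2 := Real.add_one_le_exp (-((p : ℝ) ^ (-x)))
      have h3 := Real.exp_pos (-((p : ℝ) ^ (-x)))
      nlinarith
  · rw [if_neg hP, if_neg hP, if_neg (fun hh => hP hh.2.1)]
    simp

include hx in
lemma prod_le {M N : ℕ} (hMN : M ≤ N) : ∏ p ∈ N.primesBelow, loc P b φ x p ≤
    (∏ p ∈ N.primesBelow, loc P b 0 x p) * Real.exp (-(∑ p ∈ Finset.range M, tt P b φ x p)) := by
  have h0 : 0 ≤ ∏ p ∈ N.primesBelow, loc P b 0 x p :=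
    Finset.prod_nonneg (fun p hp => loc_nonneg P b 0 hx (Nat.prime_of_mem_primesBelow hp))
  calc ∏ p ∈ N.primesBelow, loc P b φ x p
      ≤ ∏ p ∈ N.primesBelow, (loc P b 0 x p * Real.exp (-(tt P b φ x p))) :=
        Finset.prod_le_prod (fun p hp => loc_nonneg P b φ hx (Nat.prime_of_mem_primesBelow hp))
          (fun p hp => loc_le P b φ (Nat.prime_of_mem_primesBelow hp))
    _ = (∏ p ∈ N.primesBelow, loc P b 0 x p) *
        Real.exp (-(∑ p ∈ N.primesBelow, tt P b φ x p)) := by
        rw [Finset.prod_mul_distrib, ← Real.exp_sum, Finset.sum_neg_distrib]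
    _ ≤ _ := by
        refine mul_le_mul_of_nonneg_left ?_ h0
        rw [Real.exp_le_exp, neg_le_neg_iff]
        have h1 : ∑ p ∈ N.primesBelow, tt P b φ x p = ∑ p ∈ Finset.range N, tt P b φ x p := by
          rw [Nat.primesBelow, Finset.sum_filter]
          refine Finset.sum_congr rfl (fun p _ => ?_)
          unfold tt
          by_cases hp : p.Prime
          · rw [if_pos hp]
          · rw [if_neg hp, if_neg (fun hh => hp hh.1)]
        rw [h1]
        exact Finset.sum_le_sum_of_subset_of_nonneg (Finset.range_subset_range.mpr hMN)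
          (fun p _ _ => tt_nonneg P b φ x p)

include hx in
lemma tsum_le (M : ℕ) : ∑' n, ff P b φ x n ≤
    (∑' n, ff P b 0 x n) * Real.exp (-(∑ p ∈ Finset.range M, tt P b φ x p)) := by
  refine le_of_tendsto_of_tendsto (euler P b φ hx) ((euler P b 0 hx).mul_const _) ?_
  filter_upwards [eventually_ge_atTop M] with N hN
  exact prod_le P b φ hx hN

include hx in
lemma tsum_nonneg' : 0 ≤ ∑' n, ff P b φ x n := by
  refine ge_of_tendsto (euler P b φ hx) (Eventually.of_forall (fun N => ?_))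
  exact Finset.prod_nonneg (fun p hp => loc_nonneg P b φ hx (Nat.prime_of_mem_primesBelow hp))

include hx in
lemma tsum_pos' : 0 < ∑' n, ff P b 0 x n := by
  have h0 : ∀ n, 0 ≤ ff P b 0 x n := by
    intro n
    unfold ff
    split_ifs
    · refine mul_nonneg (Finset.prod_nonneg (fun p _ => ?_)) (Real.rpow_nonneg (Nat.cast_nonneg n) _)
      rw [dot_zero_left, sg_zero]; norm_num
    · exact le_rfl
  refine (ff_summable P b 0 hx).tsum_pos h0 1 ?_
  rw [ff_one]; norm_num

omit hx in
lemma ratio_tendsto (hφ : ¬ Summable (fun p : ℕ => tt P b φ 1 p)) :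
    Tendsto (fun x : ℝ => (∑' n, ff P b φ x n) / (∑' n, ff P b 0 x n)) (𝓝[>] 1) (𝓝 0) := by
  rw [tendsto_order]
  constructor
  · intro a ha
    filter_upwards [self_mem_nhdsWithin] with x hx
    exact lt_of_lt_of_le ha (div_nonneg (tsum_nonneg' P b φ hx) (tsum_pos' P b hx).le)
  · intro a ha
    have h1 := (not_summable_iff_tendsto_nat_atTop_of_nonneg (tt_nonneg P b φ 1)).mp hφ
    obtain ⟨M, hM⟩ := (h1.eventually_gt_atTop (1 - Real.log a)).exists
    have hcont : ContinuousAt (fun x : ℝ => ∑ p ∈ Finset.range M, tt P b φ x p) 1 := by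
      refine tendsto_finsetSum _ (fun p _ => ?_)
      unfold tt
      by_cases hp : p.Prime ∧ P p ∧ dot φ (b p) = 1
      · simp only [if_pos hp]
        have hp0 : (p : ℝ) ≠ 0 := by exact_mod_cast hp.1.ne_zero
        exact (ContinuousAt.rpow continuousAt_const (continuous_neg.continuousAt) (Or.inl hp0))
      · simp only [if_neg hp]
        exact tendsto_const_nhds
    have hev : ∀ᶠ x in 𝓝[>] (1 : ℝ), 1 - Real.log a < ∑ p ∈ Finset.range M, tt P b φ x p :=
      (hcont.eventually (lt_mem_nhds hM)).filter_mono nhdsWithin_le_nhds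
    filter_upwards [self_mem_nhdsWithin, hev] with x hx hx2
    have hp := tsum_pos' P b hx
    rw [div_lt_iff₀ hp]
    refine lt_of_le_of_lt (tsum_le P b φ hx M) ?_
    rw [mul_comm]
    refine mul_lt_mul_of_pos_right ?_ hp
    calc Real.exp (-(∑ p ∈ Finset.range M, tt P b φ x p)) < Real.exp (Real.log a) := by
          rw [Real.exp_lt_exp]; linarith
      _ = a := Real.exp_log ha

end DenL

open DenL

theorem den : S_DEN := by
  intro P κ _ b hns v
  have hns' : ∀ φ : κ → ZMod 2, φ ≠ 0 → ¬ Summable (fun p : ℕ => tt P b φ 1 p) := by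
    intro φ hφ hs
    apply hns φ hφ
    refine hs.congr (fun p => ?_)
    unfold tt dot
    by_cases h : p.Prime ∧ P p ∧ ∑ k, φ k * b p k = 1
    · rw [if_pos h, if_pos h, Real.rpow_neg_one, one_div]
    · rw [if_neg h, if_neg h]
  -- the formula
  have hZ0 : ∀ x : ℝ, Z (Dd P) x = ∑' n, ff P b 0 x n := by
    intro x
    unfold Z
    refine tsum_congr (fun n => ?_)
    unfold ff
    split_ifs
    · rw [Finset.prod_congr rfl (fun p _ => by rw [dot_zero_left, sg_zero]), Finset.prod_const_one,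
        one_mul]
    · rfl
  have hself : ∀ a b : κ → ZMod 2, a + b = 0 ↔ b = a := by
    intro a b
    constructor
    · intro h
      funext k
      have h1 := congrFun h k
      rw [Pi.add_apply, Pi.zero_apply] at h1
      rcases zmod2 (a k) with h2 | h2 <;> rcases zmod2 (b k) with h3 | h3 <;> rw [h2, h3] at h1 ⊢
      · exact absurd h1 (by decide)
      · exact absurd h1 (by decide)
    · intro h
      subst h
      funext k
      rw [Pi.add_apply, Pi.zero_apply]
      rcases zmod2 (b k) with h2 | h2 <;> rw [h2] <;> decide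
  have hZ : ∀ x : ℝ, 1 < x → Z {d | d ∈ Dd P ∧ ∑ p ∈ d.primeFactors, b p = v} x =
      (1 / 2 ^ Fintype.card κ) * ∑ φ : κ → ZMod 2, sg (dot φ v) * ∑' n, ff P b φ x n := by
    intro x hx
    have h1 : ∀ n : ℕ, (if n ∈ {d | d ∈ Dd P ∧ ∑ p ∈ d.primeFactors, b p = v} then (n : ℝ) ^ (-x) else 0)
        = (1 / 2 ^ Fintype.card κ) * ∑ φ : κ → ZMod 2, sg (dot φ v) * ff P b φ x n := by
      intro n
      by_cases hn : n ∈ Dd P
      · have h2 : ∑ φ : κ → ZMod 2, sg (dot φ v) * ff P b φ x n =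
            (∑ φ : κ → ZMod 2, sg (dot φ (v + ∑ p ∈ n.primeFactors, b p))) * (n : ℝ) ^ (-x) := by
          rw [Finset.sum_mul]
          refine Finset.sum_congr rfl (fun φ _ => ?_)
          unfold ff
          rw [if_pos hn, dot_add, sg_add, dot_sum, sg_sum]
          ring
        rw [h2, orth]
        by_cases hv : ∑ p ∈ n.primeFactors, b p = v
        · rw [if_pos (show n ∈ {d | d ∈ Dd P ∧ ∑ p ∈ d.primeFactors, b p = v} from ⟨hn, hv⟩),
            if_pos ((hself _ _).mpr hv)]
          field_simp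
        · rw [if_neg (fun hh => hv hh.2), if_neg (fun hh => hv ((hself _ _).mp hh))]
          ring
      · rw [if_neg (fun hh => hn hh.1)]
        symm
        rw [Finset.sum_eq_zero, mul_zero]
        intro φ _
        unfold ff
        rw [if_neg hn, mul_zero]
    have h3 : Z {d | d ∈ Dd P ∧ ∑ p ∈ d.primeFactors, b p = v} x =
        ∑' n : ℕ, (1 / 2 ^ Fintype.card κ : ℝ) * ∑ φ : κ → ZMod 2, sg (dot φ v) * ff P b φ x n := by
      unfold Z
      refine tsum_congr (fun n => ?_)
      convert h1 n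
    rw [h3, tsum_mul_left, Summable.tsum_finsetSum]
    · congr 1
      exact Finset.sum_congr rfl (fun φ _ => tsum_mul_left)
    · intro φ _
      exact (ff_summable P b φ hx).mul_left _
  have hmain : Tendsto (fun x : ℝ => (1 / 2 ^ Fintype.card κ : ℝ) * ∑ φ : κ → ZMod 2,
      sg (dot φ v) * ((∑' n, ff P b φ x n) / (∑' n, ff P b 0 x n))) (𝓝[>] 1)
      (𝓝 ((1 / 2 ^ Fintype.card κ : ℝ) * ∑ φ : κ → ZMod 2, sg (dot φ v) * (if φ = 0 then 1 else 0))) := by
    refine Tendsto.const_mul _ (tendsto_finsetSum _ (fun φ _ => Tendsto.const_mul _ ?_))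
    by_cases hφ : φ = 0
    · subst hφ
      rw [if_pos rfl]
      refine tendsto_const_nhds.congr' ?_
      filter_upwards [self_mem_nhdsWithin] with x hx
      rw [div_self (tsum_pos' P b hx).ne']
    · rw [if_neg hφ]
      exact ratio_tendsto P b φ (hns' φ hφ)
  have hlim : (1 / 2 ^ Fintype.card κ : ℝ) * ∑ φ : κ → ZMod 2, sg (dot φ v) * (if φ = 0 then 1 else 0)
      = 1 / 2 ^ Fintype.card κ := by
    rw [Finset.sum_eq_single 0]
    · rw [if_pos rfl, dot_zero_left, sg_zero]; ring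
    · intro φ _ hφ
      rw [if_neg hφ, mul_zero]
    · intro h
      exact absurd (Finset.mem_univ _) h
  rw [hlim] at hmain
  refine hmain.congr' ?_
  filter_upwards [self_mem_nhdsWithin] with x hx
  rw [hZ x hx, hZ0 x, mul_div_assoc, Finset.sum_div]
  congr 1
  exact Finset.sum_congr rfl (fun φ _ => by rw [mul_div_assoc])

end Pool.Agent.Helper35K9.OF
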