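import Mathlib
import Pool.Agent.Helper35K9.OF.Stm

/-! DIR. -/

set_option autoImplicit false

namespace Pool.Agent.Helper35K9.OF

open Finset Filter Topology
open scoped Classical

namespace DirL

theorem mul_exp_le (y : ℝ) : y * Real.exp (-y) ≤ 1 := by
  have h1 := Real.add_one_le_exp y
  have h2 : 0 < Real.exp (-y) := Real.exp_pos _
  have h3 : Real.exp y * Real.exp (-y) = 1 := by rw [← Real.exp_add, add_neg_cancel, Real.exp_zero]
  nlinarith

theorem log_rpow_le {n : ℕ} (hn : n ≠ 0) (u : ℝ) :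
    u * (Real.log n * (n : ℝ) ^ (-u)) ≤ 1 := by
  have h1 : (0 : ℝ) < n := by exact_mod_cast Nat.pos_of_ne_zero hn
  rw [Real.rpow_def_of_pos h1, ← mul_assoc, show Real.log (n : ℝ) * -u = -(u * Real.log n) by ring]
  exact mul_exp_le _

end DirL

open ArithmeticFunction ArithmeticFunction.vonMangoldt in
theorem dir : S_DIR := by
  intro q a hq ha hsum
  haveI : NeZero q := ⟨hq⟩
  have hunit : IsUnit (a : ZMod q) := (ZMod.isUnit_iff_coprime a q).mpr ha
  obtain ⟨C, hC⟩ := LSeries_residueClass_lower_bound hunit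
  set K : ℕ → ℝ := fun p => if p.Prime ∧ p ≡ a [MOD q] then (1 / p : ℝ) else 0 with hK
  have hK0 : ∀ n, 0 ≤ K n := by
    intro n
    rw [hK]
    dsimp only
    split_ifs
    · positivity
    · exact le_rfl
  have hnp := summable_residueClass_non_primes_div (a : ZMod q)
  set C1 : ℝ := ∑' n : ℕ, (if n.Prime then 0 else residueClass (a : ZMod q) n) / n with hC1
  have hb : ∀ u : ℝ, 0 < u → ∀ n : ℕ, u * (K n * (Real.log n * (n : ℝ) ^ (-u))) ≤ K n := by
    intro u hu n
    rcases Nat.eq_zero_or_pos n with rfl | hn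
    · simp [hK]
    · have h1 := DirL.log_rpow_le hn.ne' u
      have h2 := mul_le_mul_of_nonneg_left h1 (hK0 n)
      calc u * (K n * (Real.log n * (n : ℝ) ^ (-u))) =
          K n * (u * (Real.log n * (n : ℝ) ^ (-u))) := by ring
        _ ≤ K n * 1 := h2
        _ = K n := mul_one _
  have hpos : ∀ u : ℝ, ∀ n : ℕ, 0 ≤ K n * (Real.log n * (n : ℝ) ^ (-u)) := by
    intro u n
    refine mul_nonneg (hK0 n) (mul_nonneg (Real.log_natCast_nonneg n) ?_)
    exact Real.rpow_nonneg (Nat.cast_nonneg n) _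
  have hsum2 : ∀ u : ℝ, 0 < u → Summable (fun n : ℕ => K n * (Real.log n * (n : ℝ) ^ (-u))) := by
    intro u hu
    refine Summable.of_nonneg_of_le (hpos u) (fun n => ?_) (hsum.mul_left u⁻¹)
    have h1 := hb u hu n
    have h2 := mul_le_mul_of_nonneg_left h1 (inv_nonneg.mpr hu.le)
    rwa [← mul_assoc, inv_mul_cancel₀ hu.ne', one_mul] at h2
  have hpt : ∀ u : ℝ, 0 < u → ∀ n : ℕ, residueClass (a : ZMod q) n / (n : ℝ) ^ (1 + u) ≤
      (if n.Prime then 0 else residueClass (a : ZMod q) n) / n +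
        K n * (Real.log n * (n : ℝ) ^ (-u)) := by
    intro u hu n
    rcases Nat.eq_zero_or_pos n with rfl | hn
    · simp [hK]
    have hn' : (0 : ℝ) < n := by exact_mod_cast hn
    by_cases hp : n.Prime
    · rw [if_pos hp, zero_div, zero_add]
      by_cases hc : n ≡ a [MOD q]
      · have h1 : residueClass (a : ZMod q) n = Real.log n := by
          unfold residueClass
          rw [Set.indicator_of_mem (show n ∈ {n : ℕ | (n : ZMod q) = (a : ZMod q)} from
            (ZMod.natCast_eq_natCast_iff n a q).mpr hc)]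
          exact vonMangoldt_apply_prime hp
        have h2 : K n = 1 / n := by
          rw [hK]
          exact if_pos ⟨hp, hc⟩
        rw [h1, h2, Real.rpow_add hn', Real.rpow_one, Real.rpow_neg hn'.le]
        apply le_of_eq
        field_simp
      · have h1 : residueClass (a : ZMod q) n = 0 := by
          unfold residueClass
          rw [Set.indicator_of_notMem (show n ∉ {n : ℕ | (n : ZMod q) = (a : ZMod q)} from
            fun h => hc ((ZMod.natCast_eq_natCast_iff n a q).mp h))]
        rw [h1, zero_div]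
        exact hpos u n
    · rw [if_neg hp]
      have h1 : residueClass (a : ZMod q) n / (n : ℝ) ^ (1 + u) ≤
          residueClass (a : ZMod q) n / n := by
        refine div_le_div_of_nonneg_left (residueClass_nonneg _ n) hn' ?_
        conv_lhs => rw [← Real.rpow_one (n : ℝ)]
        exact Real.rpow_le_rpow_of_exponent_le (by exact_mod_cast hn) (by linarith)
      have h2 := hpos u n
      linarith
  have hmain : ∀ u : ℝ, 0 < u → u ≤ 1 → (q.totient : ℝ)⁻¹ ≤ u * (C + C1) +
      ∑' n : ℕ, u * (K n * (Real.log n * (n : ℝ) ^ (-u))) := by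
    intro u hu hu1
    have h1 := @hC (1 + u) ⟨by linarith, by linarith⟩
    rw [add_sub_cancel_left] at h1
    have h2 : ∑' n : ℕ, residueClass (a : ZMod q) n / (n : ℝ) ^ (1 + u) ≤
        ∑' n : ℕ, ((if n.Prime then 0 else residueClass (a : ZMod q) n) / n +
        K n * (Real.log n * (n : ℝ) ^ (-u))) := by
      have hs := hnp.add (hsum2 u hu)
      refine Summable.tsum_le_tsum (hpt u hu) ?_ hs
      refine Summable.of_nonneg_of_le (fun n => ?_) (hpt u hu) hs
      exact div_nonneg (residueClass_nonneg _ n) (Real.rpow_nonneg (Nat.cast_nonneg n) _)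
    rw [hnp.tsum_add (hsum2 u hu)] at h2
    rw [tsum_mul_left]
    have h3 := mul_le_mul_of_nonneg_left (h1.trans h2) hu.le
    have h4 : u * ((q.totient : ℝ)⁻¹ / u - C) = (q.totient : ℝ)⁻¹ - u * C := by
      field_simp
    rw [h4] at h3
    linarith
  have hlim : Tendsto (fun k : ℕ => ((1 : ℝ) / ((k : ℝ) + 1)) * (C + C1) +
      ∑' n : ℕ, (1 : ℝ) / ((k : ℝ) + 1) *
        (K n * (Real.log n * (n : ℝ) ^ (-((1 : ℝ) / ((k : ℝ) + 1)))))) atTop (𝓝 0) := by
    have hu := tendsto_one_div_add_atTop_nhds_zero_nat (𝕜 := ℝ)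
    have h1 : Tendsto (fun k : ℕ => ((1 : ℝ) / ((k : ℝ) + 1)) * (C + C1)) atTop (𝓝 0) := by
      simpa using hu.mul_const (C + C1)
    have h2 : Tendsto (fun k : ℕ => ∑' n : ℕ, (1 : ℝ) / ((k : ℝ) + 1) *
        (K n * (Real.log n * (n : ℝ) ^ (-((1 : ℝ) / ((k : ℝ) + 1)))))) atTop
        (𝓝 (∑' _ : ℕ, (0 : ℝ))) := by
      refine tendsto_tsum_of_dominated_convergence hsum (fun n => ?_) ?_
      · rcases Nat.eq_zero_or_pos n with rfl | hn
        · simp [hK]
        · have hn' : (0 : ℝ) < n := by exact_mod_cast hn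
          have h3 : Tendsto (fun k : ℕ => (n : ℝ) ^ (-((1 : ℝ) / ((k : ℝ) + 1)))) atTop
              (𝓝 ((n : ℝ) ^ (-(0 : ℝ)))) :=
            tendsto_const_nhds.rpow hu.neg (Or.inl hn'.ne')
          have h4 := hu.mul ((h3.const_mul (Real.log n)).const_mul (K n))
          simpa using h4
      · refine Eventually.of_forall (fun k n => ?_)
        have hk : (0 : ℝ) < 1 / ((k : ℝ) + 1) := by positivity
        rw [Real.norm_eq_abs, abs_of_nonneg (mul_nonneg hk.le (hpos _ n))]
        exact hb _ hk n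
    rw [tsum_zero] at h2
    simpa using h1.add h2
  have hge : (q.totient : ℝ)⁻¹ ≤ 0 := by
    refine ge_of_tendsto' hlim (fun k => ?_)
    refine hmain _ (by positivity) ?_
    rw [div_le_one (by positivity)]
    have : (0 : ℝ) ≤ k := Nat.cast_nonneg k
    linarith
  have hq2 : 0 < q.totient := Nat.totient_pos.mpr (Nat.pos_of_ne_zero hq)
  have hq' : 0 < (q.totient : ℝ)⁻¹ := inv_pos.mpr (Nat.cast_pos.mpr hq2)
  linarith

end Pool.Agent.Helper35K9.OF
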